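import Pool.Agent.Helper65.Mor.LC

/-!
# Functors of points and classes of rings closed under localisation

A calculus for proving that rings which represent explicit functors belong to a class of finitely
generated commutative rings.
-/

namespace Pool.Agent.Helper65.Mor

/-- functors from commutative rings to types -/
structure Fn : Type 1 where
  /-- the points with values in `R` -/
  obj : ∀ (R : Type) [CommRing R], Type
  /-- functoriality -/
  map : ∀ {R S : Type} [CommRing R] [CommRing S], (R →+* S) → obj R → obj S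
  id_map : ∀ {R : Type} [CommRing R] (x : obj R), map (RingHom.id R) x = x
  comp_map : ∀ {R S T : Type} [CommRing R] [CommRing S] [CommRing T] (f : R →+* S) (g : S →+* T)
    (x : obj R), map (g.comp f) x = map g (map f x)

namespace Fn

/-- `(A, a)` represents `F` -/
def Rep (F : Fn) (A : Type) [CommRing A] (a : F.obj A) : Prop :=
  ∀ (R : Type) [CommRing R] (x : F.obj R), ∃! f : A →+* R, F.map f a = x

theorem Rep.ext {F : Fn} {A : Type} [CommRing A] {a : F.obj A} (h : F.Rep A a) {R : Type}
    [CommRing R] {f g : A →+* R} (hfg : F.map f a = F.map g a) : f = g :=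
  (h R (F.map g a)).unique hfg rfl

theorem Rep.equiv {F : Fn} {A B : Type} [CommRing A] [CommRing B] {a : F.obj A} {b : F.obj B}
    (ha : F.Rep A a) (hb : F.Rep B b) : ∃ e : A ≃+* B, F.map (e : A →+* B) a = b := by
  obtain ⟨f, hf, -⟩ := ha B b
  obtain ⟨g, hg, -⟩ := hb A a
  have h1 : g.comp f = RingHom.id A := by
    apply ha.ext
    rw [F.comp_map, hf, hg, F.id_map]
  have h2 : f.comp g = RingHom.id B := by
    apply hb.ext
    rw [F.comp_map, hg, hf, F.id_map]
  exact ⟨RingEquiv.ofRingHom f g h2 h1, hf⟩

/-- natural isomorphisms -/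
structure Iso (F G : Fn) where
  /-- the map -/
  hom : ∀ {R : Type} [CommRing R], F.obj R → G.obj R
  /-- the inverse map -/
  inv : ∀ {R : Type} [CommRing R], G.obj R → F.obj R
  inv_hom : ∀ {R : Type} [CommRing R] (x : F.obj R), inv (hom x) = x
  hom_inv : ∀ {R : Type} [CommRing R] (y : G.obj R), hom (inv y) = y
  nat : ∀ {R S : Type} [CommRing R] [CommRing S] (f : R →+* S) (x : F.obj R),
    G.map f (hom x) = hom (F.map f x)

theorem Iso.nat_inv {F G : Fn} (e : Iso F G) {R S : Type} [CommRing R] [CommRing S] (f : R →+* S)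
    (y : G.obj R) : F.map f (e.inv y) = e.inv (G.map f y) := by
  rw [← e.inv_hom (F.map f (e.inv y)), ← e.nat, e.hom_inv]

/-- the inverse isomorphism -/
def Iso.symm {F G : Fn} (e : Iso F G) : Iso G F where
  hom := e.inv
  inv := e.hom
  inv_hom := e.hom_inv
  hom_inv := e.inv_hom
  nat f y := e.nat_inv f y

theorem Rep.iso {F G : Fn} (e : Iso F G) {A : Type} [CommRing A] {a : F.obj A}
    (h : F.Rep A a) : G.Rep A (e.hom a) := by
  intro R _ y
  obtain ⟨f, hf, hu⟩ := h R (e.inv y)
  refine ⟨f, ?_, ?_⟩
  · change G.map f (e.hom a) = y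
    rw [e.nat, hf, e.hom_inv]
  · intro g hg
    apply hu
    change F.map g a = e.inv y
    rw [← hg, ← e.nat_inv, e.inv_hom]

/-- the subfunctor of the points with the property `p` -/
def sub (F : Fn) (p : ∀ {R : Type} [CommRing R], F.obj R → Prop)
    (hp : ∀ {R S : Type} [CommRing R] [CommRing S] (f : R →+* S) (x : F.obj R), p x →
      p (F.map f x)) : Fn where
  obj R _ := {x : F.obj R // p x}
  map f x := ⟨F.map f x.1, hp f x.1 x.2⟩
  id_map x := Subtype.ext (F.id_map x.1)
  comp_map f g x := Subtype.ext (F.comp_map f g x.1)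

/-- natural functions on `F` with values in the ring -/
structure Coord (F : Fn) where
  /-- the value -/
  val : ∀ {R : Type} [CommRing R], F.obj R → R
  nat : ∀ {R S : Type} [CommRing R] [CommRing S] (f : R →+* S) (x : F.obj R),
    f (val x) = val (F.map f x)

/-- the open subfunctor where `u` is invertible -/
def opn (F : Fn) (u : Coord F) : Fn :=
  F.sub (fun x => IsUnit (u.val x)) (fun f x h => by rw [← u.nat]; exact h.map f)

/-- the closed subfunctor where `u` vanishes -/
def cls (F : Fn) (u : Coord F) : Fn :=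
  F.sub (fun x => u.val x = 0) (fun f x h => by rw [← u.nat, h, map_zero])

theorem Rep.opn {F : Fn} (u : Coord F) {A : Type} [CommRing A] {a : F.obj A} (h : F.Rep A a) :
    (F.opn u).Rep (Localization.Away (u.val a))
      ⟨F.map (algebraMap A (Localization.Away (u.val a))) a, by
        change IsUnit (u.val (F.map _ a))
        rw [← u.nat]; exact IsLocalization.Away.algebraMap_isUnit (u.val a)⟩ := by
  intro R _ x
  obtain ⟨f, hf, hu⟩ := h R x.1
  have hunit : IsUnit (f (u.val a)) := by
    rw [u.nat, hf]
    exact x.2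
  refine ⟨IsLocalization.Away.lift (u.val a) hunit, ?_, ?_⟩
  · apply Subtype.ext
    change F.map _ (F.map _ a) = x.1
    rw [← F.comp_map, IsLocalization.Away.lift_comp, hf]
  · intro g hg
    have h1 : g.comp (algebraMap A (Localization.Away (u.val a))) = f := by
      apply hu
      change F.map _ a = x.1
      rw [F.comp_map]
      exact congrArg Subtype.val hg
    apply IsLocalization.ringHom_ext (Submonoid.powers (u.val a))
    rw [h1, IsLocalization.Away.lift_comp]

theorem Rep.cls {F : Fn} (u : Coord F) {A : Type} [CommRing A] {a : F.obj A} (h : F.Rep A a) :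
    (F.cls u).Rep (A ⧸ Ideal.span {u.val a})
      ⟨F.map (Ideal.Quotient.mk (Ideal.span {u.val a})) a, by
        change u.val (F.map _ a) = 0
        rw [← u.nat, Ideal.Quotient.eq_zero_iff_mem]
        exact Ideal.mem_span_singleton_self _⟩ := by
  intro R _ x
  obtain ⟨f, hf, hu⟩ := h R x.1
  have hz : f (u.val a) = 0 := by
    rw [u.nat, hf]
    exact x.2
  have hz' : ∀ b ∈ Ideal.span {u.val a}, f b = 0 := by
    intro b hb
    obtain ⟨c, rfl⟩ := Ideal.mem_span_singleton'.1 hb
    rw [map_mul, hz, mul_zero]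
  have hcomp : (Ideal.Quotient.lift (Ideal.span {u.val a}) f hz').comp
      (Ideal.Quotient.mk (Ideal.span {u.val a})) = f := by
    ext b
    simp
  refine ⟨Ideal.Quotient.lift (Ideal.span {u.val a}) f hz', ?_, ?_⟩
  · apply Subtype.ext
    change F.map _ (F.map _ a) = x.1
    rw [← F.comp_map, hcomp, hf]
  · intro g hg
    have h1 : g.comp (Ideal.Quotient.mk (Ideal.span {u.val a})) = f := by
      apply hu
      change F.map _ a = x.1
      rw [F.comp_map]
      exact congrArg Subtype.val hg
    apply Ideal.Quotient.ringHom_ext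
    rw [h1, hcomp]

/-- the product with the affine line -/
def line (F : Fn) : Fn where
  obj R _ := F.obj R × R
  map f x := (F.map f x.1, f x.2)
  id_map x := Prod.ext (F.id_map x.1) rfl
  comp_map f g x := Prod.ext (F.comp_map f g x.1) rfl

theorem Rep.line {F : Fn} {A : Type} [CommRing A] {a : F.obj A} (h : F.Rep A a) :
    F.line.Rep (Polynomial A) (F.map Polynomial.C a, Polynomial.X) := by
  intro R _ x
  obtain ⟨f, hf, hu⟩ := h R x.1
  have hc : (Polynomial.eval₂RingHom f x.2).comp Polynomial.C = f := by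
    ext b
    simp
  refine ⟨Polynomial.eval₂RingHom f x.2, ?_, ?_⟩
  · refine Prod.ext ?_ (by change Polynomial.eval₂RingHom f x.2 Polynomial.X = x.2; simp)
    change F.map _ (F.map _ a) = x.1
    rw [← F.comp_map, hc, hf]
  · intro g hg
    have h1 : g.comp Polynomial.C = f := by
      apply hu
      rw [F.comp_map]
      exact congrArg Prod.fst hg
    have h2 : g Polynomial.X = x.2 := congrArg Prod.snd hg
    apply Polynomial.ringHom_ext
    · intro b
      have := congrArg (fun ξ : A →+* R => ξ b) h1
      simpa using this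
    · simpa using h2

/-- the last coordinate of `F.line` -/
def lineCoord (F : Fn) : Coord F.line where
  val x := x.2
  nat _ _ := rfl

/-- the zero section of the line -/
def zeroSection (F : Fn) : Iso (F.line.cls F.lineCoord) F where
  hom x := x.1.1
  inv y := ⟨(y, 0), rfl⟩
  inv_hom x := Subtype.ext (Prod.ext rfl x.2.symm)
  hom_inv _ := rfl
  nat _ _ := rfl

/-- the product with the multiplicative group -/
def gm (F : Fn) : Fn := F.line.opn F.lineCoord

end Fn

/-- Classes of finitely generated commutative rings which are closed under isomorphism,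
two-out-of-three for principal closed and open subschemes, and affine lines. -/
structure LocClass (Q : ∀ (R : Type) [CommRing R], Prop) : Prop where
  iso : ∀ (R S : Type) [CommRing R] [CommRing S], FGen R → (R ≃+* S) → Q R → Q S
  closed : ∀ (R : Type) [CommRing R] (f : R), FGen R → Q R →
    Q (Localization.Away f) → Q (R ⧸ Ideal.span {f})
  opn : ∀ (R : Type) [CommRing R] (f : R), FGen R → Q R →
    Q (R ⧸ Ideal.span {f}) → Q (Localization.Away f)
  glue : ∀ (R : Type) [CommRing R] (f : R), FGen R → Q (R ⧸ Ideal.span {f}) →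
    Q (Localization.Away f) → Q R
  line : ∀ (R : Type) [CommRing R], FGen R → Q R → Q (Polynomial R)

theorem FGen.polynomial {R : Type} [CommRing R] (hR : FGen R) : FGen (Polynomial R) :=
  hR.of_hom Polynomial.C
    (RingHom.finiteType_algebraMap.2 (inferInstance : Algebra.FiniteType R (Polynomial R)))

namespace Fn

/-- all finitely generated rings which represent `F` belong to the class -/
def Mem (Q : ∀ (R : Type) [CommRing R], Prop) (F : Fn) : Prop :=
  ∀ (A : Type) [CommRing A] (a : F.obj A), FGen A → F.Rep A a → Q A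

variable {Q : ∀ (R : Type) [CommRing R], Prop}

theorem Mem.of_iso {F G : Fn} (e : Iso F G) (h : G.Mem Q) : F.Mem Q :=
  fun A _ a hA ha => h A (e.hom a) hA (ha.iso e)

theorem Mem.of_rep (hQ : LocClass Q) {F : Fn} {A : Type} [CommRing A] {a : F.obj A}
    (hA : FGen A) (ha : F.Rep A a) (h : Q A) : F.Mem Q := by
  intro B _ b hB hb
  obtain ⟨e, -⟩ := ha.equiv hb
  exact hQ.iso A B hA e h

theorem Mem.glue (hQ : LocClass Q) {F : Fn} (u : Coord F) (h1 : (F.opn u).Mem Q)
    (h2 : (F.cls u).Mem Q) : F.Mem Q := fun A _ a hA ha =>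
  hQ.glue A (u.val a) hA (h2 _ _ (hA.quot _) (ha.cls u)) (h1 _ _ (hA.away _) (ha.opn u))

theorem Mem.opn (hQ : LocClass Q) {F : Fn} (u : Coord F) {A : Type} [CommRing A] {a : F.obj A}
    (hA : FGen A) (ha : F.Rep A a) (h : F.Mem Q) (h2 : (F.cls u).Mem Q) : (F.opn u).Mem Q :=
  Mem.of_rep hQ (hA.away _) (ha.opn u)
    (hQ.opn A (u.val a) hA (h A a hA ha) (h2 _ _ (hA.quot _) (ha.cls u)))

theorem Mem.cls (hQ : LocClass Q) {F : Fn} (u : Coord F) {A : Type} [CommRing A] {a : F.obj A}
    (hA : FGen A) (ha : F.Rep A a) (h : F.Mem Q) (h2 : (F.opn u).Mem Q) : (F.cls u).Mem Q :=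
  Mem.of_rep hQ (hA.quot _) (ha.cls u)
    (hQ.closed A (u.val a) hA (h A a hA ha) (h2 _ _ (hA.away _) (ha.opn u)))

theorem Mem.line (hQ : LocClass Q) {F : Fn} (h : F.Mem Q) : F.line.Mem Q := by
  intro A _ a hA ha
  have h1 := (ha.cls F.lineCoord).iso F.zeroSection
  have h2 := h _ _ (hA.quot _) h1
  obtain ⟨e, -⟩ := h1.line.equiv ha
  exact hQ.iso _ _ (hA.quot _).polynomial e (hQ.line _ (hA.quot _) h2)

/-- if `F × G_m` is representable then so is `F` -/
theorem exists_rep_of_gm {F : Fn} {A : Type} [CommRing A] {a : F.gm.obj A} (hA : FGen A)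
    (ha : F.gm.Rep A a) : ∃ (B : Type) (_ : CommRing B) (b : F.obj B), FGen B ∧ F.Rep B b := by
  let u : Coord F.gm := ⟨fun x => x.1.2 - 1, fun f x => by
    change f (x.1.2 - 1) = f x.1.2 - 1
    simp⟩
  let e : Iso (F.gm.cls u) F :=
    { hom := fun x => x.1.1.1
      inv := fun y => ⟨⟨(y, 1), isUnit_one⟩, sub_self 1⟩
      inv_hom := fun x => by
        apply Subtype.ext
        apply Subtype.ext
        refine Prod.ext rfl ?_
        have : x.1.1.2 - 1 = 0 := x.2
        exact (sub_eq_zero.1 this).symm
      hom_inv := fun _ => rfl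
      nat := fun _ _ => rfl }
  exact ⟨_, _, _, hA.quot _, (ha.cls u).iso e⟩

theorem Mem.gm (hQ : LocClass Q) {F : Fn} (h : F.Mem Q) : F.gm.Mem Q := by
  intro A _ a hA ha
  obtain ⟨B, _, b, hB, hb⟩ := exists_rep_of_gm hA ha
  have h1 : (F.line.cls F.lineCoord).Mem Q := Mem.of_iso F.zeroSection h
  exact Mem.opn hQ F.lineCoord hB.polynomial hb.line (Mem.line hQ h) h1 A a hA ha

end Fn

end Pool.Agent.Helper65.Mor
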