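import Mathlib

/-!
# Arithmetic schemes and formal properties of finite generation
-/

namespace Pool.Agent.Helper65.Mor

open AlgebraicGeometry CategoryTheory

/-- *Arithmetic schemes*: separated and of finite type over `Spec ℤ`. -/
def Arithmetic (X : Scheme.{0}) : Prop :=
  ∃ f : X ⟶ Spec (CommRingCat.of ℤ), LocallyOfFiniteType f ∧ QuasiCompact f ∧ IsSeparated f

/-- `Z` is a closed subscheme of `X` (via `i`) and `U` (via `j`) is its open complement. -/
structure ClosedOpen {Z X U : Scheme.{0}} (i : Z ⟶ X) (j : U ⟶ X) : Prop where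
  closed : IsClosedImmersion i
  isOpen : IsOpenImmersion j
  compl : Set.range j = (Set.range i)ᶜ

/-- The formal properties of the statement `P n X`: all groups `H^i(X_et, ℤ^c(n))` are finitely
generated, for the negative weights `n` which are used. -/
structure FormalProperties (P : ℤ → Scheme.{0} → Prop) : Prop where
  /-- invariance under isomorphism -/
  iso : ∀ n < 0, ∀ X Y : Scheme.{0}, Arithmetic X → Nonempty (X ≅ Y) → P n X → P n Y
  /-- the empty scheme -/
  empty : ∀ n < 0, ∀ X : Scheme.{0}, IsEmpty X → P n X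
  /-- localisation sequence -/
  closed : ∀ n < 0, ∀ (Z X U : Scheme.{0}) (i : Z ⟶ X) (j : U ⟶ X), Arithmetic X →
    ClosedOpen i j → P n X → P n U → P n Z
  /-- localisation sequence -/
  glue : ∀ n < 0, ∀ (Z X U : Scheme.{0}) (i : Z ⟶ X) (j : U ⟶ X), Arithmetic X →
    ClosedOpen i j → P n Z → P n U → P n X
  /-- `H^i(X_et, ℤ^c(n))` is a direct summand of `H^{i-1}((X × G_m)_et, ℤ^c(n))` -/
  torus : ∀ n < 0, ∀ (R : Type) [CommRing R], Arithmetic (Spec (CommRingCat.of R)) →
    P n (Spec (CommRingCat.of (LaurentPolynomial R))) → P n (Spec (CommRingCat.of R))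
  /-- homotopy invariance: `H^i((X × A^1)_et, ℤ^c(n)) = H^{i+2}(X_et, ℤ^c(n-1))` -/
  line : ∀ n < 0, ∀ (R : Type) [CommRing R], Arithmetic (Spec (CommRingCat.of R)) →
    P n (Spec (CommRingCat.of (Polynomial R))) → P (n - 1) (Spec (CommRingCat.of R))

end Pool.Agent.Helper65.Mor
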