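import Pool.Agent.Helper65.Mor.RingMain
import Pool.Agent.Helper65.Mor.SchemeDefs

/-!
# From rings to schemes
-/

namespace Pool.Agent.Helper65.Mor

open AlgebraicGeometry CategoryTheory TopologicalSpace

theorem arithmetic_of_fgen {R : Type} [CommRing R] (hR : FGen R) :
    Arithmetic (Spec (CommRingCat.of R)) := by
  refine ⟨Spec.map (CommRingCat.ofHom (Int.castRingHom R)), ?_, inferInstance, inferInstance⟩
  rw [HasRingHomProperty.Spec_iff (P := @LocallyOfFiniteType)]
  exact hR

theorem fgen_of_arithmetic {R : Type} [CommRing R] (h : Arithmetic (Spec (CommRingCat.of R))) :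
    FGen R := by
  obtain ⟨f, h1, -, -⟩ := h
  obtain ⟨φ, rfl⟩ := Spec.map_surjective f
  rw [HasRingHomProperty.Spec_iff (P := @LocallyOfFiniteType)] at h1
  have : φ.hom = Int.castRingHom R := RingHom.ext_int _ _
  rw [this] at h1
  exact h1

theorem Arithmetic.comp {X Y : Scheme.{0}} (f : X ⟶ Y) (hY : Arithmetic Y)
    [LocallyOfFiniteType f] [QuasiCompact f] [IsSeparated f] : Arithmetic X := by
  obtain ⟨g, h1, h2, h3⟩ := hY
  exact ⟨f ≫ g, inferInstance, inferInstance, inferInstance⟩

theorem Arithmetic.isNoetherian {X : Scheme.{0}} (hX : Arithmetic X) : IsNoetherian X := by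
  obtain ⟨f, h1, h2, h3⟩ := hX
  have h4 : IsLocallyNoetherian X := LocallyOfFiniteType.isLocallyNoetherian f
  have h5 : CompactSpace X := by
    have := h2.isCompact_preimage (U := Set.univ) isOpen_univ CompactSpace.isCompact_univ
    exact ⟨by simpa using this⟩
  exact ⟨⟩

/-- the property of rings given by `P n` -/
def onRings (P : ℤ → Scheme.{0} → Prop) (n : ℤ) (R : Type) [CommRing R] : Prop :=
  P n (Spec (CommRingCat.of R))

theorem ringClass {P : ℤ → Scheme.{0} → Prop} (hP : FormalProperties P) {n : ℤ} (hn : n < 0) :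
    RingClass (onRings P n) where
  iso R S _ _ hR e h := by
    refine hP.iso n hn _ _ (arithmetic_of_fgen hR) ⟨?_⟩ h
    exact (Scheme.Spec.mapIso e.toCommRingCatIso.symm.op)
  closed R _ f hR h1 h2 := by
    refine hP.closed n hn _ _ _ (Spec.map (CommRingCat.ofHom (Ideal.Quotient.mk (Ideal.span {f}))))
      (Spec.map (CommRingCat.ofHom (algebraMap R (Localization.Away f)))) (arithmetic_of_fgen hR)
      ⟨IsClosedImmersion.spec_of_surjective _ Ideal.Quotient.mk_surjective, inferInstance, ?_⟩ h1 h2
    have h3 : Set.range (Spec.map (CommRingCat.ofHom (algebraMap R (Localization.Away f)))) =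
        (PrimeSpectrum.basicOpen f : Set (PrimeSpectrum R)) :=
      PrimeSpectrum.localization_away_comap_range _ f
    have h4 : Set.range (Spec.map (CommRingCat.ofHom (Ideal.Quotient.mk (Ideal.span {f})))) =
        PrimeSpectrum.zeroLocus {f} := by
      have := range_comap_of_surjective (R ⧸ Ideal.span {f})
        (Ideal.Quotient.mk (Ideal.span {f})) Ideal.Quotient.mk_surjective
      rw [Ideal.mk_ker, PrimeSpectrum.zeroLocus_span] at this
      exact this
    rw [h3, h4]
    exact PrimeSpectrum.basicOpen_eq_zeroLocus_compl f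

/-- all affine arithmetic schemes -/
theorem affine_main {P : ℤ → Scheme.{0} → Prop} (hP : FormalProperties P)
    (hGr : ∀ (m : ℕ) (S : Finset (Fin 3 ↪ Fin 3 ⊕ Fin m)),
      P (-1) (Spec (CommRingCat.of (Localization.Away (∏ I ∈ S, plucker I))))) (k : ℕ) :
    ∀ (C : Type) [CommRing C], FGen C → P (-1 - k) (Spec (CommRingCat.of C)) := by
  induction k with
  | zero =>
    intro C _ hC
    have hn : (-1 : ℤ) < 0 := by norm_num
    have := ring_main (ringClass hP hn) (fun R _ hR => hP.empty _ hn _ ?_)
      (fun R _ hR h => hP.torus _ hn R (arithmetic_of_fgen hR) h) (fun m S => hGr m S) C hC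
    · have h0 : (-1 - ((0 : ℕ) : ℤ)) = -1 := by simp
      rw [h0]
      exact this
    · exact inferInstanceAs (IsEmpty (PrimeSpectrum R))
  | succ k ih =>
    intro C _ hC
    have h1 : FGen (Polynomial C) := hC.of_hom Polynomial.C
      (RingHom.finiteType_algebraMap.2 (inferInstance : Algebra.FiniteType C (Polynomial C)))
    have := hP.line (-1 - k) (by omega) C (arithmetic_of_fgen hC) (ih (Polynomial C) h1)
    have h2 : (-1 - ((k + 1 : ℕ) : ℤ)) = -1 - (k : ℤ) - 1 := by push_cast; ring
    rw [h2]
    exact this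

/-- from affine arithmetic schemes to all arithmetic schemes -/
theorem scheme_main {P : ℤ → Scheme.{0} → Prop} (hP : FormalProperties P) {n : ℤ} (hn : n < 0)
    (hA : ∀ (C : Type) [CommRing C], FGen C → P n (Spec (CommRingCat.of C)))
    (X : Scheme.{0}) (hX : Arithmetic X) : P n X := by
  have hXN := hX.isNoetherian
  suffices H : ∀ T : Closeds X, ∀ (Y : Scheme.{0}) (i : Y ⟶ X), IsClosedImmersion i →
      Set.range i = T → P n Y from
    H ⊤ X (𝟙 X) inferInstance (by simp)
  intro T
  induction T using WellFoundedLT.induction with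
  | _ T ih =>
    intro Y i hi hT
    rcases isEmpty_or_nonempty Y with hY | ⟨⟨y⟩⟩
    · exact hP.empty n hn Y hY
    have hYa : Arithmetic Y := Arithmetic.comp i hX
    obtain ⟨V, hV, hyV, -⟩ := exists_isAffineOpen_mem_and_subset (x := y) (U := ⊤) trivial
    let W : Closeds Y := ⟨(V : Set Y)ᶜ, V.2.isClosed_compl⟩
    let I := Scheme.IdealSheafData.vanishingIdeal W
    have hI : Set.range I.subschemeι = (V : Set Y)ᶜ := by
      rw [Scheme.IdealSheafData.range_subschemeι]
      simp [I, W]
    have hPW : P n I.subscheme := by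
      let T' : Closeds X := ⟨Set.range (I.subschemeι ≫ i),
        (I.subschemeι ≫ i).isClosedEmbedding.isClosed_range⟩
      refine ih T' ?_ I.subscheme (I.subschemeι ≫ i) inferInstance rfl
      rw [lt_iff_le_and_ne]
      constructor
      · intro x hx
        obtain ⟨w, rfl⟩ := hx
        change _ ∈ (T : Set X)
        rw [← hT]
        exact ⟨I.subschemeι w, by simp⟩
      · intro h
        have h1 : i y ∈ (T : Set X) := by
          rw [← hT]
          exact ⟨y, rfl⟩
        rw [← h] at h1
        obtain ⟨w, hw⟩ := h1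
        have h2 : I.subschemeι w = y := by
          apply i.isClosedEmbedding.injective
          simpa using hw
        have h3 : y ∈ (V : Set Y)ᶜ := by
          rw [← hI]
          exact ⟨w, h2⟩
        exact h3 hyV
    have hYN := hYa.isNoetherian
    have hVN : NoetherianSpace (V : Scheme.{0}) :=
      V.ι.isOpenEmbedding.isInducing.noetherianSpace
    have hVa : Arithmetic (V : Scheme.{0}) := Arithmetic.comp V.ι hYa
    have hPV : P n (V : Scheme.{0}) := by
      have : IsAffine V := hV
      have e : Spec (CommRingCat.of Γ(V, ⊤)) ≅ (V : Scheme.{0}) := (Scheme.isoSpec V).symm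
      have h1 : Arithmetic (Spec (CommRingCat.of Γ(V, ⊤))) := Arithmetic.comp e.hom hVa
      exact hP.iso n hn _ _ h1 ⟨e⟩ (hA _ (fgen_of_arithmetic h1))
    exact hP.glue n hn _ Y _ I.subschemeι V.ι hYa ⟨inferInstance, inferInstance, by
      rw [hI, compl_compl]; simp⟩ hPW hPV

end Pool.Agent.Helper65.Mor
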