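import Pool.Agent.Helper65.Mor.MorinDefs
import Pool.Agent.Helper65.Mor.SchemeMain
import Pool.Agent.Helper65.Mor.Fn

/-!
# The class `MorinClass` on the level of rings
-/

namespace Pool.Agent.Helper65.Mor

open AlgebraicGeometry CategoryTheory CategoryTheory.Limits TensorProduct

/-- The functor of points of the `(n + 1)`-fold tensor power of `α : R → S`: a ring homomorphism
on `R` together with `n + 1` extensions to `S`. -/
def powFn {R S : Type} [CommRing R] [CommRing S] (α : R →+* S) (n : ℕ) : Fn where
  obj E _ := {p : (R →+* E) × (Fin (n + 1) → (S →+* E)) // ∀ i, (p.2 i).comp α = p.1}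
  map g p := ⟨(g.comp p.1.1, fun i => g.comp (p.1.2 i)), fun i => by
    change (g.comp (p.1.2 i)).comp α = g.comp p.1.1
    rw [RingHom.comp_assoc, p.2 i]⟩
  id_map p := by
    apply Subtype.ext
    refine Prod.ext ?_ ?_
    · simp
    · funext i; simp
  comp_map f g p := by
    apply Subtype.ext
    refine Prod.ext ?_ ?_
    · simp [RingHom.comp_assoc]
    · funext i; simp [RingHom.comp_assoc]

theorem powFn_rep_zero {R S : Type} [CommRing R] [CommRing S] (α : R →+* S) :
    (powFn α 0).Rep S ⟨(α, fun _ => RingHom.id S), fun _ => RingHom.id_comp α⟩ := by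
  intro E _ p
  refine ⟨p.1.2 0, ?_, ?_⟩
  · apply Subtype.ext
    refine Prod.ext (p.2 0) ?_
    funext i
    change (p.1.2 0).comp (RingHom.id S) = p.1.2 i
    obtain rfl : i = 0 := Fin.eq_zero i
    rw [RingHom.comp_id]
  · intro g hg
    have := congrArg (fun q : (powFn α 0).obj E => q.1.2 0) hg
    change g.comp (RingHom.id S) = p.1.2 0 at this
    rwa [RingHom.comp_id] at this

/-- adding one more factor -/
theorem powFn_rep_succ {R S T : Type} [CommRing R] [CommRing S] [CommRing T]
    [Algebra R S] [Algebra R T] (n : ℕ) (t : (powFn (algebraMap R S) n).obj T)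
    (ht : (powFn (algebraMap R S) n).Rep T t) (h1 : t.1.1 = algebraMap R T) :
    ∃ t' : (powFn (algebraMap R S) (n + 1)).obj (T ⊗[R] S),
      (powFn (algebraMap R S) (n + 1)).Rep (T ⊗[R] S) t' ∧
      t'.1.1 = algebraMap R (T ⊗[R] S) := by
  let l : T →+* T ⊗[R] S := Algebra.TensorProduct.includeLeftRingHom
  let r : S →+* T ⊗[R] S := (Algebra.TensorProduct.includeRight : S →ₐ[R] T ⊗[R] S).toRingHom
  have hr : r.comp (algebraMap R S) = algebraMap R (T ⊗[R] S) :=
    (Algebra.TensorProduct.includeRight : S →ₐ[R] T ⊗[R] S).comp_algebraMap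
  have hl : l.comp (algebraMap R T) = algebraMap R (T ⊗[R] S) :=
    (Algebra.TensorProduct.includeLeft : T →ₐ[R] T ⊗[R] S).comp_algebraMap
  let t' : (powFn (algebraMap R S) (n + 1)).obj (T ⊗[R] S) :=
    ⟨(algebraMap R (T ⊗[R] S), Fin.snoc (fun i : Fin (n + 1) => l.comp (t.1.2 i)) r), by
      intro i
      refine Fin.lastCases ?_ (fun i => ?_) i
      · simp only [Fin.snoc_last]
        exact hr
      · simp only [Fin.snoc_castSucc]
        rw [RingHom.comp_assoc, t.2 i, h1, hl]⟩
  refine ⟨t', ?_, rfl⟩
  intro E _ p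
  let p0 : (powFn (algebraMap R S) n).obj E :=
    ⟨(p.1.1, fun i => p.1.2 i.castSucc), fun i => p.2 i.castSucc⟩
  obtain ⟨φ, hφ, hu⟩ := ht E p0
  have hφ1 : φ.comp (algebraMap R T) = p.1.1 := by
    have := congrArg (fun q : (powFn (algebraMap R S) n).obj E => q.1.1) hφ
    change φ.comp t.1.1 = p.1.1 at this
    rwa [h1] at this
  let _ : Algebra R E := p.1.1.toAlgebra
  let φ' : T →ₐ[R] E := { φ with commutes' := fun x => RingHom.congr_fun hφ1 x }
  let ψ' : S →ₐ[R] E :=
    { p.1.2 (Fin.last _) with commutes' := fun x => RingHom.congr_fun (p.2 (Fin.last _)) x }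
  let χ : T ⊗[R] S →ₐ[R] E := Algebra.TensorProduct.lift φ' ψ' (fun _ _ => Commute.all _ _)
  have hχl : (χ : T ⊗[R] S →+* E).comp l = φ := by
    ext x
    change χ (x ⊗ₜ 1) = φ x
    rw [Algebra.TensorProduct.lift_tmul, map_one, mul_one]
    rfl
  have hχr : (χ : T ⊗[R] S →+* E).comp r = p.1.2 (Fin.last _) := by
    ext x
    change χ (1 ⊗ₜ x) = _
    rw [Algebra.TensorProduct.lift_tmul, map_one, one_mul]
    rfl
  refine ⟨χ, ?_, ?_⟩
  · apply Subtype.ext
    refine Prod.ext ?_ ?_
    · change (χ : T ⊗[R] S →+* E).comp (algebraMap R (T ⊗[R] S)) = p.1.1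
      rw [← hl, ← RingHom.comp_assoc, hχl, hφ1]
    · funext i
      change (χ : T ⊗[R] S →+* E).comp ((Fin.snoc (fun i : Fin (n + 1) => l.comp (t.1.2 i)) r :
        Fin (n + 2) → (S →+* T ⊗[R] S)) i) = p.1.2 i
      refine Fin.lastCases ?_ (fun i => ?_) i
      · simp only [Fin.snoc_last]
        exact hχr
      · simp only [Fin.snoc_castSucc]
        rw [← RingHom.comp_assoc, hχl]
        exact congrArg (fun q : (powFn (algebraMap R S) n).obj E => q.1.2 i) hφ
  · intro g hg
    have hg2 : ∀ i, g.comp ((Fin.snoc (fun i : Fin (n + 1) => l.comp (t.1.2 i)) r :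
        Fin (n + 2) → (S →+* T ⊗[R] S)) i) = p.1.2 i := fun i =>
      congrArg (fun q : (powFn (algebraMap R S) (n + 1)).obj E => q.1.2 i) hg
    have hg1 : g.comp (algebraMap R (T ⊗[R] S)) = p.1.1 :=
      congrArg (fun q : (powFn (algebraMap R S) (n + 1)).obj E => q.1.1) hg
    have hgl : g.comp l = φ := by
      apply hu
      apply Subtype.ext
      refine Prod.ext ?_ ?_
      · change (g.comp l).comp t.1.1 = p.1.1
        rw [h1, RingHom.comp_assoc, hl, hg1]
      · funext i
        have := hg2 i.castSucc
        simp only [Fin.snoc_castSucc] at this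
        rw [← RingHom.comp_assoc] at this
        exact this
    have hgr : g.comp r = p.1.2 (Fin.last _) := by
      have := hg2 (Fin.last _)
      simpa only [Fin.snoc_last] using this
    apply RingHom.ext
    intro x
    induction x using TensorProduct.induction_on with
    | zero => rw [map_zero, map_zero]
    | add x y hx hy => rw [map_add, map_add, hx, hy]
    | tmul x y =>
      have h2 : x ⊗ₜ[R] y = l x * r y := by
        change _ = (x ⊗ₜ[R] (1 : S)) * ((1 : T) ⊗ₜ[R] y)
        rw [Algebra.TensorProduct.tmul_mul_tmul, mul_one, one_mul]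
      rw [h2, map_mul, map_mul]
      have h3 := RingHom.congr_fun hgl x
      have h4 := RingHom.congr_fun hgr y
      have h5 := RingHom.congr_fun hχl x
      have h6 := RingHom.congr_fun hχr y
      simp only [RingHom.comp_apply] at h3 h4 h5 h6
      rw [h3, h4, h5, h6]

theorem exists_pullback_iso {X Y P P' : Scheme.{0}} (f : Y ⟶ X) (g : P ⟶ X) (g' : P' ⟶ X)
    (e : P ≅ P') (h : e.hom ≫ g' = g) :
    ∃ e1 : pullback g f ≅ pullback g' f,
      e1.hom ≫ pullback.fst g' f = pullback.fst g f ≫ e.hom :=
  ⟨asIso (pullback.map g f g' f e.hom (𝟙 _) (𝟙 _) (by simp [h]) (by simp)), pullback.lift_fst _ _ _⟩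

/-- the iterated fibre products of an affine étale morphism are affine and represent `powFn` -/
theorem fibrePower_spec {R S : Type} [CommRing R] [CommRing S] [Algebra R S] (hR : FGen R)
    (hS : (algebraMap R S).FiniteType) (n : ℕ) :
    ∃ (T : Type) (_ : CommRing T) (t : (powFn (algebraMap R S) n).obj T)
      (e : (fibrePower (Spec.map (CommRingCat.ofHom (algebraMap R S))) n).left ≅
        Spec (CommRingCat.of T)),
      (powFn (algebraMap R S) n).Rep T t ∧ FGen T ∧
      e.hom ≫ Spec.map (CommRingCat.ofHom t.1.1) =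
        (fibrePower (Spec.map (CommRingCat.ofHom (algebraMap R S))) n).hom := by
  induction n with
  | zero => exact ⟨S, inferInstance, _, Iso.refl _, powFn_rep_zero _, hR.of_hom _ hS, by
      simp [fibrePower]⟩
  | succ n ih =>
    obtain ⟨T, _, t, e, ht, hT, he⟩ := ih
    let _ : Algebra R T := t.1.1.toAlgebra
    obtain ⟨t', ht', h1⟩ := powFn_rep_succ n t ht rfl
    let f := Spec.map (CommRingCat.ofHom (algebraMap R S))
    obtain ⟨e1, he1⟩ := exists_pullback_iso f (fibrePower f n).hom
      (Spec.map (CommRingCat.ofHom (algebraMap R T))) e he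
    refine ⟨T ⊗[R] S, inferInstance, t', e1 ≪≫ pullbackSpecIso R T S, ht', ?_, ?_⟩
    · have h2 : Algebra.FiniteType T (T ⊗[R] S) := by
        have : Algebra.FiniteType R S := RingHom.finiteType_algebraMap.1 hS
        infer_instance
      exact hT.of_hom (algebraMap T (T ⊗[R] S)) (RingHom.finiteType_algebraMap.2 h2)
    · rw [h1, Iso.trans_hom, Category.assoc, pullbackSpecIso_hom_base, ← Category.assoc]
      change (e1.hom ≫ pullback.fst _ f) ≫ _ =
        pullback.fst (fibrePower f n).hom f ≫ (fibrePower f n).hom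
      rw [he1, Category.assoc]
      exact congrArg (fun ξ => pullback.fst (fibrePower f n).hom f ≫ ξ) he

/-- The properties of `MorinClass` on the level of rings. -/
structure MorinRings (Q : ∀ (R : Type) [CommRing R], Prop) : Prop extends LocClass Q where
  zero : ∀ (R : Type) [CommRing R], Subsingleton R → Q R
  integers : ∀ (F : Type) [Field F] [NumberField F], Q (NumberField.RingOfIntegers F)
  curves : ∀ (k R : Type) [Field k] [Finite k] [CommRing R] [Algebra k R],
    CurveProduct k R → Q R
  summand : ∀ (R S : Type) [CommRing R] [CommRing S], Q (R × S) → Q R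
  etale : ∀ (R S : Type) [CommRing R] [CommRing S] [Algebra R S], FGen R → Algebra.Etale R S →
    Function.Surjective (PrimeSpectrum.comap (algebraMap R S)) →
    (∀ n, (powFn (algebraMap R S) n).Mem Q) → Q R

/-- closed and open principal subschemes -/
theorem closedOpen_span {R : Type} [CommRing R] (f : R) :
    ClosedOpen (Spec.map (CommRingCat.ofHom (Ideal.Quotient.mk (Ideal.span {f}))))
      (Spec.map (CommRingCat.ofHom (algebraMap R (Localization.Away f)))) := by
  refine ⟨IsClosedImmersion.spec_of_surjective _ Ideal.Quotient.mk_surjective, inferInstance, ?_⟩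
  have h3 : Set.range (Spec.map (CommRingCat.ofHom (algebraMap R (Localization.Away f)))) =
      (PrimeSpectrum.basicOpen f : Set (PrimeSpectrum R)) :=
    PrimeSpectrum.localization_away_comap_range _ f
  have h4 : Set.range (Spec.map (CommRingCat.ofHom (Ideal.Quotient.mk (Ideal.span {f})))) =
      PrimeSpectrum.zeroLocus {f} := by
    have := range_comap_of_surjective (R ⧸ Ideal.span {f})
      (Ideal.Quotient.mk (Ideal.span {f})) Ideal.Quotient.mk_surjective
    rw [Ideal.mk_ker, PrimeSpectrum.zeroLocus_span] at this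
    exact this
  rw [h3, h4]
  exact PrimeSpectrum.basicOpen_eq_zeroLocus_compl f

/-- membership of affine schemes -/
def OnRings (R : Type) [CommRing R] : Prop := MorinClass (Spec (CommRingCat.of R))

theorem OnRings.of_equiv {R S : Type} [CommRing R] [CommRing S] (e : R ≃+* S) (h : OnRings R) :
    OnRings S :=
  MorinClass.iso _ _ (Scheme.Spec.mapIso e.toCommRingCatIso.symm.op) h

theorem morinRings : MorinRings OnRings where
  iso R S _ _ hR e h := h.of_equiv e
  closed R _ f hR h1 h2 := MorinClass.closed _ _ _ _ _ (closedOpen_span f) h1 h2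
  opn R _ f hR h1 h2 := MorinClass.isOpen _ _ _ _ _ (closedOpen_span f) h1 h2
  glue R _ f hR h1 h2 :=
    MorinClass.glue _ _ _ _ _ (arithmetic_of_fgen hR) (closedOpen_span f) h1 h2
  line R _ hR h := by
    have h1 := MorinClass.line _ h
    have h2 : OnRings (MvPolynomial (Fin 1) R) :=
      MorinClass.iso _ _ (AffineSpace.SpecIso (Fin 1) (CommRingCat.of R)) h1
    exact h2.of_equiv (MvPolynomial.uniqueAlgEquiv R (Fin 1)).toRingEquiv
  zero R _ hR := MorinClass.empty _ (inferInstanceAs (IsEmpty (PrimeSpectrum R)))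
  integers F _ _ := MorinClass.integers F
  curves k R _ _ _ _ h := MorinClass.curves k R h
  summand R S _ _ h := by
    let _ := (RingHom.fst R S).toAlgebra
    have h1 : IsOpenImmersion (Spec.map (CommRingCat.ofHom (RingHom.fst R S))) :=
      IsOpenImmersion.of_isLocalization (1, 0)
    have h2 : IsClosedImmersion (Spec.map (CommRingCat.ofHom (RingHom.fst R S))) :=
      IsClosedImmersion.spec_of_surjective _ Prod.fst_surjective
    exact MorinClass.summand _ _ _ h1 h2 h
  etale R S _ _ _ hR hS hsurj h := by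
    let f := Spec.map (CommRingCat.ofHom (algebraMap R S))
    have h1 : Etale f := by
      rw [HasRingHomProperty.Spec_iff (P := @Etale)]
      exact RingHom.etale_algebraMap.2 hS
    have hft : (algebraMap R S).FiniteType := by
      rw [RingHom.finiteType_algebraMap]
      infer_instance
    refine MorinClass.etale _ _ f (arithmetic_of_fgen hR) h1 ⟨hsurj⟩ (fun n => ?_)
    obtain ⟨T, _, t, e, ht, hT, -⟩ := fibrePower_spec hR hft n
    exact MorinClass.iso _ _ e.symm (h n T t hT ht)

end Pool.Agent.Helper65.Mor
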