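import Pool.Agent.Helper65.Mor.Morin

/-!
# Adjoining roots of separable monic polynomials
-/

namespace Pool.Agent.Helper65.Mor

open Polynomial

section AdjoinRoot

variable {B : Type} [CommRing B]

theorem etale_adjoinRoot {h : B[X]} (hm : h.Monic) (hc : IsCoprime h (derivative h)) :
    Algebra.Etale B (AdjoinRoot h) := by
  obtain ⟨u, v, huv⟩ := hc
  let P : StandardEtalePair B :=
    { f := h
      monic_f := hm
      g := 1
      cond := ⟨v, u, 0, by rw [pow_zero, ← huv]; ring⟩ }
  have hP : P.HasMap (AdjoinRoot.root h) := ⟨by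
    change aeval (AdjoinRoot.root h) h = 0
    rw [AdjoinRoot.aeval_eq, AdjoinRoot.mk_self], by
    change IsUnit (aeval (AdjoinRoot.root h) (1 : B[X]))
    rw [map_one]
    exact isUnit_one⟩
  have hX : aeval P.X h = 0 := P.hasMap_X.1
  let e : P.Ring ≃ₐ[B] AdjoinRoot h := AlgEquiv.ofAlgHom (P.lift (AdjoinRoot.root h) hP)
    (AdjoinRoot.liftAlgHom h (Algebra.ofId B P.Ring) P.X hX) (by
      apply AdjoinRoot.algHom_ext
      simp) (by
      apply StandardEtalePair.hom_ext
      simp)
  exact Algebra.Etale.of_equiv e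

theorem comap_adjoinRoot_surjective {h : B[X]} (hm : h.Monic) (hd : h.natDegree ≠ 0) :
    Function.Surjective (PrimeSpectrum.comap (algebraMap B (AdjoinRoot h))) := by
  cases subsingleton_or_nontrivial B with
  | inl hB => intro x; exact (x.2.ne_top (Subsingleton.elim _ _)).elim
  | inr hB =>
    have := hm.free_adjoinRoot
    have : Nontrivial (AdjoinRoot h) := by
      let b := (AdjoinRoot.powerBasis' hm).basis
      have hi : 0 < (AdjoinRoot.powerBasis' hm).dim := by
        rw [AdjoinRoot.powerBasis'_dim]; omega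
      exact ⟨⟨b ⟨0, hi⟩, 0, b.ne_zero _⟩⟩
    exact PrimeSpectrum.comap_surjective_of_faithfullyFlat

end AdjoinRoot

namespace Fn

/-- natural polynomials on `F` -/
structure PolyCoord (F : Fn) where
  /-- the value -/
  val : ∀ {R : Type} [CommRing R], F.obj R → R[X]
  nat : ∀ {R S : Type} [CommRing R] [CommRing S] (f : R →+* S) (x : F.obj R),
    (val x).map f = val (F.map f x)

/-- a point of `F` together with `m` roots of the polynomial `h` -/
def roots (F : Fn) (h : PolyCoord F) (m : ℕ) : Fn where
  obj R _ := {p : F.obj R × (Fin m → R) // ∀ i, (h.val p.1).eval (p.2 i) = 0}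
  map f p := ⟨(F.map f p.1.1, fun i => f (p.1.2 i)), fun i => by
    change (h.val (F.map f p.1.1)).eval (f (p.1.2 i)) = 0
    rw [← h.nat, eval_map_apply, p.2 i, map_zero]⟩
  id_map p := Subtype.ext (Prod.ext (F.id_map p.1.1) rfl)
  comp_map f g p := Subtype.ext (Prod.ext (F.comp_map f g p.1.1) rfl)

/-- tensor powers of `B[t]/(h)` represent roots of `h` -/
theorem exists_iso_roots {F : Fn} (h : PolyCoord F) {B : Type} [CommRing B] {b : F.obj B}
    (hb : F.Rep B b) (n : ℕ) :
    Nonempty (Iso (powFn (algebraMap B (AdjoinRoot (h.val b))) n) (F.roots h (n + 1))) := by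
  classical
  have key : ∀ {E : Type} [CommRing E] (x : F.obj E),
      F.map (hb E x).choose b = x ∧ ∀ g, F.map g b = x → g = (hb E x).choose := fun x =>
    (hb _ x).choose_spec
  have lem : ∀ {E : Type} [CommRing E] (x : F.obj E) (t : E), (h.val x).eval t = 0 →
      (h.val b).eval₂ (hb E x).choose t = 0 := by
    intro E _ x t ht
    rw [← eval_map, h.nat, (key x).1]
    exact ht
  have rt : ∀ {E : Type} [CommRing E]
      (p : (powFn (algebraMap B (AdjoinRoot (h.val b))) n).obj E) (i : Fin (n + 1)),
      (h.val (F.map p.1.1 b)).eval (p.1.2 i (AdjoinRoot.root (h.val b))) = 0 := by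
    intro E _ p i
    rw [← h.nat, eval_map, ← p.2 i, ← hom_eval₂]
    have h1 : (h.val b).eval₂ (algebraMap B (AdjoinRoot (h.val b)))
        (AdjoinRoot.root (h.val b)) = 0 := AdjoinRoot.eval₂_root (h.val b)
    rw [h1, map_zero]
  refine ⟨{
    hom := fun {E} _ p => ⟨(F.map p.1.1 b, fun i => p.1.2 i (AdjoinRoot.root (h.val b))), rt p⟩
    inv := fun {E} _ y => ⟨((hb E y.1.1).choose, fun i =>
      AdjoinRoot.lift (hb E y.1.1).choose (y.1.2 i) (lem _ _ (y.2 i))), fun i =>
      AdjoinRoot.lift_comp_of (lem _ _ (y.2 i))⟩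
    inv_hom := ?_
    hom_inv := ?_
    nat := ?_ }⟩
  · intro E _ p
    have h1 : (hb E (F.map p.1.1 b)).choose = p.1.1 := ((key _).2 p.1.1 rfl).symm
    apply Subtype.ext
    refine Prod.ext h1 ?_
    funext i
    apply AdjoinRoot.ringHom_ext
    · refine (AdjoinRoot.lift_comp_of (lem _ _ (rt p i))).trans ?_
      rw [h1]
      exact (p.2 i).symm
    · exact AdjoinRoot.lift_root (lem _ _ (rt p i))
  · intro E _ y
    apply Subtype.ext
    refine Prod.ext (key y.1.1).1 ?_
    funext i
    exact AdjoinRoot.lift_root (lem _ _ (y.2 i))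
  · intro E E' _ _ g p
    apply Subtype.ext
    refine Prod.ext ?_ rfl
    change F.map g (F.map p.1.1 b) = F.map (g.comp p.1.1) b
    rw [F.comp_map]

variable {Q : ∀ (R : Type) [CommRing R], Prop}

theorem Mem.of_subsingleton (hQ : MorinRings Q) {F : Fn}
    (h : ∀ (R : Type) [CommRing R], F.obj R → Subsingleton R) : F.Mem Q :=
  fun A _ a _ _ => hQ.zero A (h A a)

/-- **Étale descent**: adjoining roots of a separable monic polynomial. -/
theorem Mem.of_roots (hQ : MorinRings Q) {F : Fn} (h : PolyCoord F)
    (hm : ∀ {R : Type} [CommRing R] (x : F.obj R), (h.val x).Monic)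
    (hd : ∀ {R : Type} [CommRing R] [Nontrivial R] (x : F.obj R), (h.val x).natDegree ≠ 0)
    (hc : ∀ {R : Type} [CommRing R] (x : F.obj R), IsCoprime (h.val x) (derivative (h.val x)))
    (H : ∀ n, (F.roots h (n + 1)).Mem Q) : F.Mem Q := by
  intro B _ b hB hb
  cases subsingleton_or_nontrivial B with
  | inl hB0 => exact hQ.zero B hB0
  | inr hB1 =>
    refine hQ.etale B (AdjoinRoot (h.val b)) hB (etale_adjoinRoot (hm b) (hc b))
      (comap_adjoinRoot_surjective (hm b) (hd b)) (fun n => ?_)
    obtain ⟨e⟩ := exists_iso_roots h hb n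
    exact Mem.of_iso e (H n)

theorem isUnit_sub_of_prod {R : Type} [CommRing R] {ι : Type} [Fintype ι] [DecidableEq ι]
    (a : ι → R) (h : R[X]) (hh : h = ∏ i, (X - C (a i))) (hc : IsCoprime h (derivative h))
    {i j : ι} (hij : i ≠ j) : IsUnit (a i - a j) := by
  obtain ⟨u, v, huv⟩ := hc
  have h0 : h.eval (a i) = 0 := by
    rw [hh, eval_prod]
    exact Finset.prod_eq_zero (Finset.mem_univ i) (by simp)
  have h1 : v.eval (a i) * (derivative h).eval (a i) = 1 := by
    have := congrArg (eval (a i)) huv
    simpa [h0] using this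
  have h2 : (a i - a j) ∣ (derivative h).eval (a i) := by
    have h3 : h = (X - C (a i)) * ∏ l ∈ Finset.univ.erase i, (X - C (a l)) := by
      rw [hh]
      exact (Finset.mul_prod_erase _ _ (Finset.mem_univ i)).symm
    rw [h3, derivative_mul, eval_add, eval_mul, eval_mul]
    simp only [derivative_sub, derivative_X, derivative_C, sub_zero, eval_one, one_mul, eval_sub,
      eval_X, eval_C, sub_self, zero_mul, add_zero]
    rw [eval_prod]
    simp only [eval_sub, eval_X, eval_C]
    exact Finset.dvd_prod_of_mem (fun l => a i - a l)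
      (Finset.mem_erase.2 ⟨hij.symm, Finset.mem_univ j⟩)
  exact isUnit_of_dvd_unit h2 (IsUnit.of_mul_eq_one _ (by rw [mul_comm]; exact h1))

/-- the first root -/
def rootsFirst {F : Fn} {h : PolyCoord F} {m : ℕ} {R : Type} [CommRing R]
    (y : (F.roots h (m + 1)).obj R) : (F.roots h 1).obj R :=
  ⟨(y.1.1, fun _ => y.1.2 0), fun _ => y.2 0⟩

/-- all roots except the last one -/
def rootsInit {F : Fn} {h : PolyCoord F} {m : ℕ} {R : Type} [CommRing R]
    (y : (F.roots h (m + 1)).obj R) : (F.roots h m).obj R :=
  ⟨(y.1.1, fun i => y.1.2 i.castSucc), fun i => y.2 i.castSucc⟩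

/-- adding one more root -/
def rootsSnoc {F : Fn} {h : PolyCoord F} {m : ℕ} {R : Type} [CommRing R]
    (z : (F.roots h (m + 1)).obj R) (t : R) (ht : (h.val z.1.1).eval t = 0) :
    (F.roots h (m + 2)).obj R :=
  ⟨(z.1.1, Fin.snoc (α := fun _ => R) z.1.2 t), fun i => by
    refine Fin.lastCases ?_ (fun i => ?_) i
    · simp only [Fin.snoc_last]
      exact ht
    · simp only [Fin.snoc_castSucc]
      exact z.2 i⟩

theorem rootsFirst_snoc {F : Fn} {h : PolyCoord F} {m : ℕ} {R : Type} [CommRing R]
    (z : (F.roots h (m + 1)).obj R) (t : R) (ht : (h.val z.1.1).eval t = 0) :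
    rootsFirst (rootsSnoc z t ht) = rootsFirst z := by
  apply Subtype.ext
  refine Prod.ext rfl ?_
  funext i
  change Fin.snoc (α := fun _ => R) z.1.2 t (Fin.castSucc 0) = z.1.2 0
  rw [Fin.snoc_castSucc]

theorem rootsInit_snoc {F : Fn} {h : PolyCoord F} {m : ℕ} {R : Type} [CommRing R]
    (z : (F.roots h (m + 1)).obj R) (t : R) (ht : (h.val z.1.1).eval t = 0) :
    rootsInit (rootsSnoc z t ht) = z := by
  apply Subtype.ext
  refine Prod.ext rfl ?_
  funext i
  change Fin.snoc (α := fun _ => R) z.1.2 t (Fin.castSucc i) = z.1.2 i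
  rw [Fin.snoc_castSucc]

theorem rootsSnoc_last {F : Fn} {h : PolyCoord F} {m : ℕ} {R : Type} [CommRing R]
    (z : (F.roots h (m + 1)).obj R) (t : R) (ht : (h.val z.1.1).eval t = 0) :
    (rootsSnoc z t ht).1.2 (Fin.last _) = t := by
  change Fin.snoc (α := fun _ => R) z.1.2 t (Fin.last _) = t
  rw [Fin.snoc_last]

theorem rootsSnoc_init {F : Fn} {h : PolyCoord F} {m : ℕ} {R : Type} [CommRing R]
    (y : (F.roots h (m + 2)).obj R) (t : R) (ht : (h.val (rootsInit y).1.1).eval t = 0)
    (hy : y.1.2 (Fin.last _) = t) : rootsSnoc (rootsInit y) t ht = y := by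
  apply Subtype.ext
  refine Prod.ext rfl ?_
  funext i
  change Fin.snoc (α := fun _ => R) (fun i : Fin (m + 1) => y.1.2 i.castSucc) t i = y.1.2 i
  refine Fin.lastCases ?_ (fun i => ?_) i
  · rw [Fin.snoc_last, hy]
  · rw [Fin.snoc_castSucc]

/-- If `h` splits after adjoining one root then the étale cover by one root suffices. -/
theorem Mem.of_split_root (hQ : MorinRings Q) {F : Fn} (h : PolyCoord F)
    (hm : ∀ {R : Type} [CommRing R] (x : F.obj R), (h.val x).Monic)
    (hd : ∀ {R : Type} [CommRing R] [Nontrivial R] (x : F.obj R), (h.val x).natDegree ≠ 0)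
    (hc : ∀ {R : Type} [CommRing R] (x : F.obj R), IsCoprime (h.val x) (derivative (h.val x)))
    {d : ℕ} (a : Fin d → Coord (F.roots h 1))
    (ha : ∀ {R : Type} [CommRing R] (x : (F.roots h 1).obj R),
      h.val x.1.1 = ∏ i, (X - C ((a i).val x)))
    (H : (F.roots h 1).Mem Q) : F.Mem Q := by
  classical
  refine Mem.of_roots hQ h hm hd hc (fun n => ?_)
  induction n with
  | zero => exact H
  | succ n ih =>
    let G : ℕ → Fn := fun k => (F.roots h (n + 2)).sub
      (fun y => ∀ i : Fin d, (i : ℕ) < k → IsUnit (y.1.2 (Fin.last _) - (a i).val (rootsFirst y)))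
      (fun f y hy i hi => by
        have h1 := (hy i hi).map f
        rw [map_sub, (a i).nat] at h1
        exact h1)
    suffices hG : ∀ k, k ≤ d → (G (d - k)).Mem Q by
      have h0 := hG d le_rfl
      rw [Nat.sub_self] at h0
      refine Mem.of_iso (G := G 0) ?_ h0
      exact
        { hom := fun y => ⟨y, fun i hi => (Nat.not_lt_zero _ hi).elim⟩
          inv := fun y => y.1
          inv_hom := fun _ => rfl
          hom_inv := fun _ => rfl
          nat := fun _ _ => rfl }
    intro k
    induction k with
    | zero =>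
      intro _
      refine Mem.of_subsingleton hQ (fun R _ y => ?_)
      have h1 : IsUnit (0 : R) := by
        have h2 := y.1.2 (Fin.last _)
        have h3 : h.val y.1.1.1 = ∏ i, (X - C ((a i).val (rootsFirst y.1))) :=
          ha (rootsFirst y.1)
        rw [h3, eval_prod] at h2
        rw [← h2]
        rw [IsUnit.prod_univ_iff] 
        intro i
        have h4 := y.2 i (by rw [Nat.sub_zero]; exact i.2)
        simpa using h4
      exact subsingleton_of_zero_eq_one (by
        obtain ⟨u, hu⟩ := h1
        have := u.mul_inv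
        rw [hu, zero_mul] at this
        exact this)
    | succ k ihk =>
      intro hk
      have hlt : d - (k + 1) < d := by omega
      let i0 : Fin d := ⟨d - (k + 1), hlt⟩
      let u : Coord (G (d - (k + 1))) :=
        { val := fun y => y.1.1.2 (Fin.last _) - (a i0).val (rootsFirst y.1)
          nat := fun f y => by
            rw [map_sub, (a i0).nat]
            rfl }
      refine Mem.glue hQ.toLocClass u ?_ ?_
      · refine Mem.of_iso (G := G (d - k)) ?_ (ihk (by omega))
        exact
          { hom := fun y => ⟨y.1.1, fun i hi => by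
              rcases Nat.lt_or_ge (i : ℕ) (d - (k + 1)) with h1 | h1
              · exact y.1.2 i h1
              · have h2 : i = i0 := Fin.ext (by change (i : ℕ) = d - (k + 1); omega)
                rw [h2]
                exact y.2⟩
            inv := fun y => ⟨⟨y.1, fun i hi => y.2 i (by omega)⟩, y.2 i0 (by
              change d - (k + 1) < d - k
              omega)⟩
            inv_hom := fun _ => rfl
            hom_inv := fun _ => rfl
            nat := fun _ _ => rfl }
      · refine Mem.of_iso (G := F.roots h (n + 1)) ?_ ih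
        have hev : ∀ {R : Type} [CommRing R] (z : (F.roots h (n + 1)).obj R),
            (h.val z.1.1).eval ((a i0).val (rootsFirst z)) = 0 := by
          intro R _ z
          have h3 : h.val z.1.1 = ∏ i, (X - C ((a i).val (rootsFirst z))) := ha (rootsFirst z)
          rw [h3, eval_prod]
          exact Finset.prod_eq_zero (Finset.mem_univ i0) (by simp)
        exact
          { hom := fun y => rootsInit y.1.1
            inv := fun z => ⟨⟨rootsSnoc z ((a i0).val (rootsFirst z)) (hev z), fun i hi => by
                rw [rootsFirst_snoc, rootsSnoc_last]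
                refine isUnit_sub_of_prod (fun i => (a i).val (rootsFirst z)) (h.val z.1.1)
                  (ha (rootsFirst z)) (hc z.1.1) (fun h0 => ?_)
                rw [← h0] at hi
                exact lt_irrefl _ hi⟩, by
                change (rootsSnoc z ((a i0).val (rootsFirst z)) (hev z)).1.2 (Fin.last _) -
                  (a i0).val (rootsFirst (rootsSnoc z ((a i0).val (rootsFirst z)) (hev z))) = 0
                rw [rootsFirst_snoc, rootsSnoc_last, sub_self]⟩
            inv_hom := fun y => by
              apply Subtype.ext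
              apply Subtype.ext
              have h1 : y.1.1.1.2 (Fin.last _) - (a i0).val (rootsFirst y.1.1) = 0 := y.2
              exact rootsSnoc_init y.1.1 _ (hev (rootsInit y.1.1)) (sub_eq_zero.1 h1)
            hom_inv := fun z => rootsInit_snoc z _ (hev z)
            nat := fun _ _ => rfl }

end Fn

end Pool.Agent.Helper65.Mor
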