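import Pool.Agent.Helper65.Mor.Plucker

/-!
# Encoding of a finitely generated ring by Pluecker coordinates
-/

namespace Pool.Agent.Helper65.Mor

open MvPolynomial

section

variable {C : Type} [CommRing C] (Y : Finset C)

/-- the columns: the unit point `u`, the diagonal direction `d` and the points `q a b` -/
abbrev Col : Type := Option (Option (Y × Y))

variable {Y}

/-- the unit point -/
abbrev cu : Col Y := none
/-- the point at infinity of the diagonal -/
abbrev cd : Col Y := some none
/-- the point with the coordinates `(a, b)` -/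
abbrev cq (a b : Y) : Col Y := some (some (a, b))

variable (Y)

/-- the triples of columns which have to be independent -/
def openTriples : Set (Fin 3 → Fin 3 ⊕ Col Y) :=
  {![.inl 1, .inl 2, .inr cu], ![.inl 0, .inl 2, .inr cu], ![.inl 0, .inl 1, .inr cu],
    ![.inl 1, .inl 2, .inr cd]} ∪ {I | ∃ a b : Y, I = ![.inl 0, .inl 1, .inr (cq a b)]}

/-- the triples of columns which have to be dependent -/
def closedTriples : Set (Fin 3 → Fin 3 ⊕ Col Y) :=
  {I | I = ![.inl 0, .inl 1, .inr cd] ∨ I = ![.inl 2, .inr cu, .inr cd] ∨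
    (∃ a b b' : Y, I = ![.inl 1, .inr (cq a b), .inr (cq a b')]) ∨
    (∃ a a' b : Y, I = ![.inl 0, .inr (cq a b), .inr (cq a' b)]) ∨
    (∃ a : Y, I = ![.inl 2, .inr (cq a a), .inr cu]) ∨
    (∃ e : Y, (e : C) = 1 ∧ I = ![.inl 0, .inr (cq e e), .inr cu]) ∨
    (∃ z : Y, (z : C) = 0 ∧ I = ![.inl 0, .inl 2, .inr (cq z z)]) ∨
    (∃ a b c e : Y, (e : C) = 1 ∧ (c : C) = a * b ∧
      I = ![.inl 2, .inr (cq a c), .inr (cq e b)]) ∨
    (∃ a b c z : Y, (z : C) = 0 ∧ (c : C) = a + b ∧
      I = ![.inr cd, .inr (cq a c), .inr (cq z b)])}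

/-- the conditions for the coordinates `x` of the columns -/
structure Cond {E : Type} [CommRing E] (x : Fin 3 → Col Y → E) : Prop where
  u0 : IsUnit (x 0 cu)
  u1 : IsUnit (x 1 cu)
  u2 : IsUnit (x 2 cu)
  d0 : IsUnit (x 0 cd)
  q2 : ∀ a b : Y, IsUnit (x 2 (cq a b))
  d2 : x 2 cd = 0
  ud : x 0 cu * x 1 cd = x 0 cd * x 1 cu
  row : ∀ a b b' : Y, x 0 (cq a b) * x 2 (cq a b') = x 0 (cq a b') * x 2 (cq a b)
  colu : ∀ a a' b : Y, x 1 (cq a b) * x 2 (cq a' b) = x 1 (cq a' b) * x 2 (cq a b)
  diag : ∀ a : Y, x 0 (cq a a) * x 1 cu = x 0 cu * x 1 (cq a a)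
  one : ∀ e : Y, (e : C) = 1 → x 1 (cq e e) * x 2 cu = x 1 cu * x 2 (cq e e)
  zero : ∀ z : Y, (z : C) = 0 → x 1 (cq z z) = 0
  mul : ∀ a b c e : Y, (e : C) = 1 → (c : C) = a * b →
    x 0 (cq a c) * x 1 (cq e b) = x 0 (cq e b) * x 1 (cq a c)
  add : ∀ a b c z : Y, (z : C) = 0 → (c : C) = a + b →
    x 0 cd * (x 1 (cq a c) * x 2 (cq z b) - x 1 (cq z b) * x 2 (cq a c)) =
      x 1 cd * (x 0 (cq a c) * x 2 (cq z b) - x 0 (cq z b) * x 2 (cq a c))

theorem cond_iff {E : Type} [CommRing E] (φ : Chart (Col Y) →+* E) :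
    ((∀ g ∈ plucker '' openTriples Y, IsUnit (φ g)) ∧
      ∀ f ∈ plucker '' closedTriples Y, φ f = 0) ↔ Cond Y (fun i j => φ (X (i, j))) := by
  constructor
  · rintro ⟨hG, hF⟩
    have hG' : ∀ I ∈ openTriples Y, IsUnit (φ (plucker I)) := fun I hI => hG _ ⟨I, hI, rfl⟩
    have hF' : ∀ I ∈ closedTriples Y, φ (plucker I) = 0 := fun I hI => hF _ ⟨I, hI, rfl⟩
    constructor
    · have := hG' ![.inl 1, .inl 2, .inr cu] (by simp [openTriples])
      rwa [plucker_12] at this
    · have := hG' ![.inl 0, .inl 2, .inr cu] (by simp [openTriples])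
      rw [plucker_02, map_neg] at this
      exact (IsUnit.neg_iff _).1 this
    · have := hG' ![.inl 0, .inl 1, .inr cu] (by simp [openTriples])
      rwa [plucker_01] at this
    · have := hG' ![.inl 1, .inl 2, .inr cd] (by simp [openTriples])
      rwa [plucker_12] at this
    · intro a b
      have := hG' ![.inl 0, .inl 1, .inr (cq a b)] (Or.inr ⟨a, b, rfl⟩)
      rwa [plucker_01] at this
    · have := hF' ![.inl 0, .inl 1, .inr cd] (Or.inl rfl)
      rwa [plucker_01] at this
    · have := hF' ![.inl 2, .inr cu, .inr cd] (Or.inr (Or.inl rfl))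
      rw [plucker_2, map_sub, map_mul, map_mul, sub_eq_zero] at this
      exact this
    · intro a b b'
      have := hF' _ (Or.inr (Or.inr (Or.inl ⟨a, b, b', rfl⟩)))
      rw [plucker_1, map_sub, map_mul, map_mul, sub_eq_zero] at this
      exact this.symm
    · intro a a' b
      have := hF' _ (Or.inr (Or.inr (Or.inr (Or.inl ⟨a, a', b, rfl⟩))))
      rw [plucker_0, map_sub, map_mul, map_mul, sub_eq_zero] at this
      exact this
    · intro a
      have := hF' _ (Or.inr (Or.inr (Or.inr (Or.inr (Or.inl ⟨a, rfl⟩)))))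
      rw [plucker_2, map_sub, map_mul, map_mul, sub_eq_zero] at this
      exact this
    · intro e he
      have := hF' _ (Or.inr (Or.inr (Or.inr (Or.inr (Or.inr (Or.inl ⟨e, he, rfl⟩))))))
      rw [plucker_0, map_sub, map_mul, map_mul, sub_eq_zero] at this
      exact this
    · intro z hz
      have := hF' _ (Or.inr (Or.inr (Or.inr (Or.inr (Or.inr (Or.inr (Or.inl ⟨z, hz, rfl⟩)))))))
      rw [plucker_02, map_neg, neg_eq_zero] at this
      exact this
    · intro a b c e he hc
      have := hF' _ (Or.inr (Or.inr (Or.inr (Or.inr (Or.inr (Or.inr (Or.inr (Or.inl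
        ⟨a, b, c, e, he, hc, rfl⟩))))))))
      rw [plucker_2, map_sub, map_mul, map_mul, sub_eq_zero] at this
      exact this
    · intro a b c z hz hc
      have := hF' _ (Or.inr (Or.inr (Or.inr (Or.inr (Or.inr (Or.inr (Or.inr (Or.inr
        ⟨a, b, c, z, hz, hc, rfl⟩))))))))
      have hd2 := hF' ![.inl 0, .inl 1, .inr cd] (Or.inl rfl)
      rw [plucker_01] at hd2
      rw [plucker_3] at this
      simp only [map_sub, map_mul, map_add, hd2] at this
      linear_combination this
  · intro h
    constructor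
    · rintro _ ⟨I, hI, rfl⟩
      rcases hI with hI | ⟨a, b, rfl⟩
      · simp only [Set.mem_insert_iff, Set.mem_singleton_iff] at hI
        rcases hI with rfl | rfl | rfl | rfl
        · rw [plucker_12]
          exact h.u0
        · rw [plucker_02, map_neg]
          exact h.u1.neg
        · rw [plucker_01]
          exact h.u2
        · rw [plucker_12]
          exact h.d0
      · rw [plucker_01]
        exact h.q2 a b
    · rintro _ ⟨I, hI, rfl⟩
      rcases hI with rfl | rfl | ⟨a, b, b', rfl⟩ | ⟨a, a', b, rfl⟩ | ⟨a, rfl⟩ | ⟨e, he, rfl⟩ |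
        ⟨z, hz, rfl⟩ | ⟨a, b, c, e, he, hc, rfl⟩ | ⟨a, b, c, z, hz, hc, rfl⟩
      · rw [plucker_01]
        exact h.d2
      · rw [plucker_2, map_sub, map_mul, map_mul, sub_eq_zero]
        exact h.ud
      · rw [plucker_1, map_sub, map_mul, map_mul, sub_eq_zero]
        exact (h.row a b b').symm
      · rw [plucker_0, map_sub, map_mul, map_mul, sub_eq_zero]
        exact h.colu a a' b
      · rw [plucker_2, map_sub, map_mul, map_mul, sub_eq_zero]
        exact h.diag a
      · rw [plucker_0, map_sub, map_mul, map_mul, sub_eq_zero]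
        exact h.one e he
      · rw [plucker_02, map_neg, neg_eq_zero]
        exact h.zero z hz
      · rw [plucker_2, map_sub, map_mul, map_mul, sub_eq_zero]
        exact h.mul a b c e he hc
      · rw [plucker_3]
        simp only [map_sub, map_mul, map_add]
        have h1 := h.add a b c z hz hc
        have h2 := h.d2
        rw [h2]
        linear_combination h1

end

end Pool.Agent.Helper65.Mor
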