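import Mathlib

/-!
# Locally closed pieces of affine schemes: a calculus by universal properties

`LC α G F`: the ring homomorphism `α : A → B` is the universal one which makes the elements of `G`
invertible and kills the elements of `F`; i.e. `Spec B` is the locally closed subscheme of `Spec A`
where the members of `G` are invertible and the members of `F` vanish.
-/

namespace Pool.Agent.Helper65.Mor

open Ideal

/-- `R` is a finitely generated commutative ring -/
def FGen (R : Type) [CommRing R] : Prop := (Int.castRingHom R).FiniteType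

theorem FGen.of_hom {R S : Type} [CommRing R] [CommRing S] (hR : FGen R) (g : R →+* S)
    (hg : g.FiniteType) : FGen S := by
  have : Int.castRingHom S = g.comp (Int.castRingHom R) := RingHom.ext_int _ _
  rw [FGen, this]
  exact hg.comp hR

theorem FGen.of_surjective {R S : Type} [CommRing R] [CommRing S] (hR : FGen R) (g : R →+* S)
    (hg : Function.Surjective g) : FGen S := hR.of_hom g (RingHom.FiniteType.of_surjective g hg)

theorem FGen.away {R : Type} [CommRing R] (hR : FGen R) (f : R) : FGen (Localization.Away f) :=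
  hR.of_hom (algebraMap R (Localization.Away f)) (RingHom.finiteType_algebraMap.2 inferInstance)

theorem FGen.quot {R : Type} [CommRing R] (hR : FGen R) (I : Ideal R) : FGen (R ⧸ I) :=
  hR.of_surjective (Ideal.Quotient.mk I) Ideal.Quotient.mk_surjective

/-- `α : A →+* B` is universal for making `G` invertible and killing `F`. -/
structure LC {A B : Type} [CommRing A] [CommRing B] (α : A →+* B) (G F : Set A) : Prop where
  unit : ∀ g ∈ G, IsUnit (α g)
  zero : ∀ f ∈ F, α f = 0
  lift : ∀ (E : Type) [CommRing E] (φ : A →+* E), (∀ g ∈ G, IsUnit (φ g)) →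
    (∀ f ∈ F, φ f = 0) → ∃ ψ : B →+* E, ψ.comp α = φ
  ext : ∀ (E : Type) [CommRing E] (ψ ψ' : B →+* E), ψ.comp α = ψ'.comp α → ψ = ψ'

variable {A B C : Type} [CommRing A] [CommRing B] [CommRing C]

theorem LC.equiv {α : A →+* B} {β : A →+* C} {G F : Set A} (hα : LC α G F) (hβ : LC β G F) :
    Nonempty (B ≃+* C) := by
  obtain ⟨ψ, hψ⟩ := hα.lift C β hβ.unit hβ.zero
  obtain ⟨χ, hχ⟩ := hβ.lift B α hα.unit hα.zero
  refine ⟨RingEquiv.ofRingHom ψ χ ?_ ?_⟩
  · apply hβ.ext
    rw [RingHom.comp_assoc, hχ, hψ, RingHom.id_comp]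
  · apply hα.ext
    rw [RingHom.comp_assoc, hψ, hχ, RingHom.id_comp]

theorem LC.congr {α : A →+* B} {G G' F F' : Set A} (hα : LC α G F)
    (hG : ∀ (E : Type) [CommRing E] (φ : A →+* E),
      (∀ g ∈ G, IsUnit (φ g)) ↔ ∀ g ∈ G', IsUnit (φ g))
    (hF : ∀ (E : Type) [CommRing E] (φ : A →+* E), (∀ f ∈ F, φ f = 0) ↔ ∀ f ∈ F', φ f = 0) :
    LC α G' F' where
  unit := (hG B α).1 hα.unit
  zero := (hF B α).1 hα.zero
  lift E _ φ h1 h2 := hα.lift E φ ((hG E φ).2 h1) ((hF E φ).2 h2)
  ext := hα.ext

/-- localization at one more element -/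
theorem LC.away {α : A →+* B} {G F : Set A} (hα : LC α G F) (f : A) :
    LC ((algebraMap B (Localization.Away (α f))).comp α) (insert f G) F where
  unit g hg := by
    rcases hg with rfl | hg
    · exact IsLocalization.Away.algebraMap_isUnit (α g)
    · exact (hα.unit g hg).map (algebraMap B (Localization.Away (α f)))
  zero f' hf' := by
    rw [RingHom.comp_apply, hα.zero f' hf', map_zero]
  lift E _ φ h1 h2 := by
    obtain ⟨ψ, hψ⟩ := hα.lift E φ (fun g hg => h1 g (Set.mem_insert_of_mem _ hg)) h2
    have hu : IsUnit (ψ (α f)) := by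
      rw [← RingHom.comp_apply, hψ]
      exact h1 f (Set.mem_insert _ _)
    refine ⟨IsLocalization.Away.lift (α f) hu, ?_⟩
    rw [← RingHom.comp_assoc, IsLocalization.Away.lift_comp, hψ]
  ext E _ ψ ψ' h := by
    apply IsLocalization.ringHom_ext (Submonoid.powers (α f))
    apply hα.ext
    rw [RingHom.comp_assoc, h, RingHom.comp_assoc]

/-- the closed subscheme of one more element -/
theorem LC.quot {α : A →+* B} {G F : Set A} (hα : LC α G F) (f : A) :
    LC ((Ideal.Quotient.mk (Ideal.span {α f})).comp α) G (insert f F) where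
  unit g hg := (hα.unit g hg).map (Ideal.Quotient.mk (Ideal.span {α f}))
  zero f' hf' := by
    rcases hf' with rfl | hf'
    · rw [RingHom.comp_apply, Ideal.Quotient.eq_zero_iff_mem]
      exact Ideal.mem_span_singleton_self _
    · rw [RingHom.comp_apply, hα.zero f' hf', map_zero]
  lift E _ φ h1 h2 := by
    obtain ⟨ψ, hψ⟩ := hα.lift E φ h1 (fun g hg => h2 g (Set.mem_insert_of_mem _ hg))
    refine ⟨Ideal.Quotient.lift _ ψ ?_, ?_⟩
    · intro a ha
      obtain ⟨b, rfl⟩ := Ideal.mem_span_singleton'.1 ha
      rw [map_mul, ← RingHom.comp_apply ψ α, hψ, h2 f (Set.mem_insert _ _), mul_zero]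
    · ext a
      have := congrArg (fun χ : A →+* E => χ a) hψ
      simpa using this
  ext E _ ψ ψ' h := by
    apply Ideal.Quotient.ringHom_ext
    apply hα.ext
    rw [RingHom.comp_assoc, h, RingHom.comp_assoc]

theorem LC.id : LC (RingHom.id A) ∅ ∅ where
  unit g hg := hg.elim
  zero g hg := hg.elim
  lift E _ φ _ _ := ⟨φ, RingHom.comp_id φ⟩
  ext E _ ψ ψ' h := by simpa using h

/-- existence of the universal ring -/
theorem LC.exists_model (A : Type) [CommRing A] (hA : FGen A) (G F : Finset A) :
    ∃ (B : Type) (_ : CommRing B) (α : A →+* B), LC α (G : Set A) (F : Set A) ∧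
      FGen B := by
  classical
  induction F using Finset.induction_on with
  | empty =>
    induction G using Finset.induction_on with
    | empty => exact ⟨A, inferInstance, RingHom.id A, by simpa using LC.id, hA⟩
    | insert g G _ ih =>
      obtain ⟨B, _, α, hα, hB⟩ := ih
      exact ⟨Localization.Away (α g), inferInstance, _, by simpa using hα.away g, hB.away _⟩
  | insert f F _ ih =>
    obtain ⟨B, _, α, hα, hB⟩ := ih
    exact ⟨B ⧸ Ideal.span {α f}, inferInstance, _, by simpa using hα.quot f, hB.quot _⟩

theorem LC.finiteType {α : A →+* B} {G F : Finset A} (hα : LC α (G : Set A) (F : Set A))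
    (hA : FGen A) : FGen B := by
  obtain ⟨B', _, α', hα', hB'⟩ := LC.exists_model A hA G F
  obtain ⟨e⟩ := hα'.equiv hα
  exact hB'.of_surjective (e : B' →+* B) e.surjective

/-- The properties of a class of commutative rings (finitely generated over `ℤ`) which are used at
the level of rings. -/
structure RingClass (Q : ∀ (R : Type) [CommRing R], Prop) : Prop where
  iso : ∀ (R S : Type) [CommRing R] [CommRing S], FGen R → (R ≃+* S) → Q R → Q S
  closed : ∀ (R : Type) [CommRing R] (f : R), FGen R → Q R →
    Q (Localization.Away f) → Q (R ⧸ Ideal.span {f})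

/-- **Closed conditions from open conditions.** -/
theorem RingClass.of_open {Q : ∀ (R : Type) [CommRing R], Prop} (hQ : RingClass Q)
    (hA : FGen A) (F : Finset A) :
    ∀ (G : Finset A), (∀ S ⊆ F, ∀ (B : Type) [CommRing B] (β : A →+* B),
      LC β ((G : Set A) ∪ (S : Set A)) ∅ → Q B) →
    ∀ (B : Type) [CommRing B] (β : A →+* B), LC β (G : Set A) (F : Set A) → Q B := by
  classical
  induction F using Finset.induction_on with
  | empty =>
    intro G h B _ β hβ
    exact h ∅ le_rfl B β (by simpa using hβ)
  | insert f F hf ih =>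
    intro G h B _ β hβ
    obtain ⟨R, _, α, hα, hR⟩ := LC.exists_model A hA G F
    have h1 : Q R := ih G (fun S hS => h S (hS.trans (Finset.subset_insert _ _))) R α hα
    have h2 : Q (Localization.Away (α f)) := by
      refine ih (insert f G) ?_ _ _ (by simpa using hα.away f)
      intro S hS B' _ β' hβ'
      refine h (insert f S) (Finset.insert_subset_insert _ hS) B' β' ?_
      have : ((G : Set A) ∪ ((insert f S : Finset A) : Set A)) =
          ((insert f G : Finset A) : Set A) ∪ (S : Set A) := by
        ext x; simp; tauto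
      rw [this]
      exact hβ'
    have h3 : Q (R ⧸ Ideal.span {α f}) := hQ.closed R (α f) hR h1 h2
    have h4 : LC ((Ideal.Quotient.mk (Ideal.span {α f})).comp α) (G : Set A)
        ((insert f F : Finset A) : Set A) := by simpa using hα.quot f
    obtain ⟨e⟩ := h4.equiv hβ
    exact hQ.iso _ _ (hR.quot _) e h3

end Pool.Agent.Helper65.Mor
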