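import Pool.Agent.Helper65.Mor.Encode

/-!
# The encoding is the product of `Spec C` with a split torus
-/

namespace Pool.Agent.Helper65.Mor

open MvPolynomial

section

variable {C : Type} [CommRing C] {Y : Finset C}

/-- the coordinates of the universal configuration over `D` -/
def xval {D : Type} [CommRing D] (γ : C →+* D) (t : Fin 3 ⊕ Option (Y × Y) → D) (i : Fin 3) :
    Col Y → D
  | none => t (.inl i)
  | some none => t (.inr none) * (if i = 2 then 0 else t (.inl i))
  | some (some (a, b)) => t (.inr (some (a, b))) * t (.inl i) * ![γ a, γ b, 1] i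

theorem cond_xval {D : Type} [CommRing D] {γ : C →+* D} {t : Fin 3 ⊕ Option (Y × Y) → D}
    (ht : ∀ i, IsUnit (t i)) : Cond Y (xval γ t) where
  u0 := ht _
  u1 := ht _
  u2 := ht _
  d0 := by simpa [xval] using ⟨ht _, ht _⟩
  q2 a b := by
    have h1 := ht (.inr (some (a, b)))
    have h2 := ht (.inl 2)
    simp only [xval]
    simpa using ⟨h1, h2⟩
  d2 := by simp [xval]
  ud := by simp [xval]; ring
  row a b b' := by simp [xval]; ring
  colu a a' b := by simp [xval]; ring
  diag a := by simp [xval]; ring
  one e he := by simp [xval, he]; ring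
  zero z hz := by simp [xval, hz]
  mul a b c e he hc := by simp [xval, he, hc]; ring
  add a b c z hz hc := by simp [xval, hz, hc]; ring

variable {E : Type} [CommRing E]

theorem exists_of_cond (h0 : (0 : C) ∈ Y) (h1 : (1 : C) ∈ Y)
    (hY : ∀ (E : Type) [CommRing E] (e : C → E), PHom (Y : Set C) e →
        ∃ ψ : C →+* E, ∀ y ∈ Y, ψ y = e y) {x : Fin 3 → Col Y → E} (hx : Cond Y x) :
    ∃ (ψ : C →+* E) (t : Fin 3 ⊕ Option (Y × Y) → E), (∀ i, IsUnit (t i)) ∧
      ∀ i j, xval ψ t i j = x i j := by
  classical
  obtain ⟨U0, hU0⟩ := hx.u0.exists_right_inv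
  obtain ⟨U2, hU2⟩ := hx.u2.exists_right_inv
  choose w hw using fun a b => (hx.q2 a b).exists_right_inv
  let z : Y := ⟨0, h0⟩
  let o : Y := ⟨1, h1⟩
  let s : Y → Y → E := fun a b => x 2 (cq a b) * U2
  have hs : ∀ a b, IsUnit (s a b) := fun a b =>
    (hx.q2 a b).mul (IsUnit.of_mul_eq_one _ (by rw [mul_comm]; exact hU2))
  let e' : Y → E := fun a => x 0 (cq a a) * x 2 cu * w a a * U0
  have F3 : ∀ a b, x 2 (cq a b) = s a b * x 2 cu := by
    intro a b
    simp only [s]
    linear_combination (-x 2 (cq a b)) * hU2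
  have F1 : ∀ a b, x 0 (cq a b) = s a b * x 0 cu * e' a := by
    intro a b
    have r := hx.row a a b
    have w1 := hw a a
    simp only [s, e']
    linear_combination (-x 0 (cq a b)) * w1 - w a a * r
      - x 2 (cq a b) * x 0 (cq a a) * w a a * x 2 cu * U2 * hU0
      - x 2 (cq a b) * x 0 (cq a a) * w a a * hU2
  have F2 : ∀ a b, x 1 (cq a b) = s a b * x 1 cu * e' b := by
    intro a b
    have r := hx.colu a b b
    have w1 := hw b b
    have dg := hx.diag b
    simp only [s, e']
    linear_combination (-x 1 (cq a b)) * w1 + w b b * r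
      - x 2 (cq a b) * U2 * x 2 cu * w b b * U0 * dg
      - x 2 (cq a b) * U2 * x 2 cu * w b b * x 1 (cq b b) * hU0
      - x 2 (cq a b) * w b b * x 1 (cq b b) * hU2
  have hz0 : e' z = 0 := by
    have r := hx.zero z rfl
    rw [F2] at r
    have hu : IsUnit (s z z * x 1 cu) := (hs z z).mul hx.u1
    exact hu.mul_right_eq_zero.1 r
  have ho1 : e' o = 1 := by
    have r := hx.one o rfl
    rw [F2, F3] at r
    have hu : IsUnit (s o o * x 1 cu * x 2 cu) := ((hs o o).mul hx.u1).mul hx.u2
    apply hu.mul_left_cancel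
    linear_combination r
  have hmul : ∀ a b c : Y, (c : C) = a * b → e' c = e' a * e' b := by
    intro a b c hc
    have r := hx.mul a b c o rfl hc
    rw [F1, F2, F1, F2, ho1] at r
    have hu : IsUnit (s a c * s o b * x 0 cu * x 1 cu) :=
      (((hs a c).mul (hs o b)).mul hx.u0).mul hx.u1
    apply hu.mul_left_cancel
    linear_combination -r
  have hd1 : x 1 cd = x 0 cd * U0 * x 1 cu := by
    linear_combination (-x 1 cd) * hU0 + U0 * hx.ud
  have hadd : ∀ a b c : Y, (c : C) = a + b → e' c = e' a + e' b := by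
    intro a b c hc
    have r := hx.add a b c z rfl hc
    rw [hd1, F1, F2, F1, F2, F3, F3, hz0] at r
    have hu : IsUnit (s a c * s z b * x 1 cu * x 2 cu * x 0 cd) :=
      ((((hs a c).mul (hs z b)).mul hx.u1).mul hx.u2).mul hx.d0
    apply hu.mul_left_cancel
    linear_combination r + x 0 cd * s a c * s z b * x 1 cu * x 2 cu * e' a * hU0
  let e : C → E := fun c => if h : c ∈ Y then e' ⟨c, h⟩ else 0
  have he : ∀ a : Y, e a = e' a := by
    intro a
    simp [e]
  have hP : PHom (Y : Set C) e := by
    constructor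
    · intro h
      exact (he z).trans hz0
    · intro h
      exact (he o).trans ho1
    · intro a ha b hb hab
      have := hadd ⟨a, ha⟩ ⟨b, hb⟩ ⟨a + b, hab⟩ rfl
      rw [← he, ← he, ← he] at this
      exact this
    · intro a ha b hb hab
      have := hmul ⟨a, ha⟩ ⟨b, hb⟩ ⟨a * b, hab⟩ rfl
      rw [← he, ← he, ← he] at this
      exact this
  obtain ⟨ψ, hψ⟩ := hY E e hP
  have hψ' : ∀ a : Y, ψ a = e' a := fun a => (hψ a a.2).trans (he a)
  refine ⟨ψ, fun j => match j with
    | .inl i => x i cu
    | .inr none => x 0 cd * U0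
    | .inr (some (a, b)) => s a b, ?_, ?_⟩
  · rintro (i | _ | ⟨a, b⟩)
    · fin_cases i
      · exact hx.u0
      · exact hx.u1
      · exact hx.u2
    · exact hx.d0.mul (IsUnit.of_mul_eq_one _ (by rw [mul_comm]; exact hU0))
    · exact hs a b
  · rintro i (_ | _ | ⟨a, b⟩)
    · rfl
    · fin_cases i
      · simp only [xval]
        simp
        linear_combination x 0 cd * hU0
      · simp only [xval]
        simp
        exact hd1.symm
      · simp only [xval]
        simp
        exact hx.d2.symm
    · fin_cases i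
      · simp only [xval]
        simp [hψ']
        exact (F1 a b).symm
      · simp only [xval]
        simp [hψ']
        exact (F2 a b).symm
      · simp only [xval]
        simp
        exact (F3 a b).symm

end

end Pool.Agent.Helper65.Mor
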