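import Pool.Agent.Helper65.Mor.SchemeDefs

/-!
# A class of arithmetic schemes contained in Morin's class `L(ℤ)`
-/

namespace Pool.Agent.Helper65.Mor

open AlgebraicGeometry CategoryTheory CategoryTheory.Limits TensorProduct

/-- The iterated fibre products `Y ×_X ... ×_X Y` (`n + 1` factors), as schemes over `X`. -/
noncomputable def fibrePower {X Y : Scheme.{0}} (f : Y ⟶ X) : ℕ → Over X
  | 0 => Over.mk f
  | n + 1 => Over.mk (pullback.fst (fibrePower f n).hom f ≫ (fibrePower f n).hom)

/-- `CurveProduct k R`: the `k`-algebra `R` is a finite tensor product over the field `k` of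
finitely generated `k`-algebras of Krull dimension at most `1` (coordinate rings of affine curves
and of finite schemes). -/
inductive CurveProduct (k : Type) [Field k] : ∀ (R : Type) [CommRing R] [Algebra k R], Prop
  | base : CurveProduct k k
  | tensor (R A : Type) [CommRing R] [Algebra k R] [CommRing A] [Algebra k A] :
      CurveProduct k R → Algebra.FiniteType k A → ringKrullDim A ≤ 1 → CurveProduct k (R ⊗[k] A)
  | iso (R S : Type) [CommRing R] [Algebra k R] [CommRing S] [Algebra k S] :
      CurveProduct k R → (R ≃ₐ[k] S) → CurveProduct k S

/-- A class of arithmetic schemes contained in Morin's class `L(ℤ)`. -/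
inductive MorinClass : Scheme.{0} → Prop
  /-- the empty scheme -/
  | empty (X : Scheme.{0}) : IsEmpty X → MorinClass X
  /-- spectra of rings of integers of number fields -/
  | integers (F : Type) [Field F] [NumberField F] :
      MorinClass (Spec (CommRingCat.of (NumberField.RingOfIntegers F)))
  /-- products of affine curves over finite fields -/
  | curves (k R : Type) [Field k] [Finite k] [CommRing R] [Algebra k R] :
      CurveProduct k R → MorinClass (Spec (CommRingCat.of R))
  /-- invariance under isomorphism -/
  | iso (X Y : Scheme.{0}) : (X ≅ Y) → MorinClass X → MorinClass Y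
  /-- two-out-of-three for a closed subscheme `Z` of `X` and its open complement `U` -/
  | glue (Z X U : Scheme.{0}) (i : Z ⟶ X) (j : U ⟶ X) : Arithmetic X → ClosedOpen i j →
      MorinClass Z → MorinClass U → MorinClass X
  /-- two-out-of-three for a closed subscheme `Z` of `X` and its open complement `U` -/
  | closed (Z X U : Scheme.{0}) (i : Z ⟶ X) (j : U ⟶ X) : ClosedOpen i j →
      MorinClass X → MorinClass U → MorinClass Z
  /-- two-out-of-three for a closed subscheme `Z` of `X` and its open complement `U` -/
  | isOpen (Z X U : Scheme.{0}) (i : Z ⟶ X) (j : U ⟶ X) : ClosedOpen i j →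
      MorinClass X → MorinClass Z → MorinClass U
  /-- summands of disjoint unions -/
  | summand (Z X : Scheme.{0}) (i : Z ⟶ X) : IsOpenImmersion i → IsClosedImmersion i →
      MorinClass X → MorinClass Z
  /-- the affine line over a member -/
  | line (X : Scheme.{0}) : MorinClass X → MorinClass (AffineSpace (Fin 1) X)
  /-- schemes with an étale cover all of whose iterated fibre products are members -/
  | etale (X Y : Scheme.{0}) (f : Y ⟶ X) : Arithmetic X → Etale f → Surjective f →
      (∀ n, MorinClass (fibrePower f n).left) → MorinClass X

end Pool.Agent.Helper65.Mor
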