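import Mathlib

/-!
# Pluecker coordinates on the standard chart of `Gr(3, 3 + J)` (definitions)
-/

namespace Pool.Agent.Helper65.Mor

/-- The coordinate ring of the standard chart of the Grassmannian `Gr(3, 3 + J)` over `ℤ`: the
polynomial ring in the entries of a `3 × J` matrix `X`. -/
abbrev Chart (J : Type) : Type := MvPolynomial (Fin 3 × J) ℤ

/-- The generic `3 × (3 + J)` matrix `[1 | X]`. -/
noncomputable def genMatrix (J : Type) : Matrix (Fin 3) (Fin 3 ⊕ J) (Chart J) :=
  Matrix.fromCols 1 (Matrix.of fun i j => MvPolynomial.X (i, j))

/-- The Pluecker coordinate of the triple `I` of columns of `[1 | X]`: the determinant of these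
three columns. -/
noncomputable def plucker {J : Type} (I : Fin 3 → Fin 3 ⊕ J) : Chart J :=
  ((genMatrix J).submatrix id I).det

end Pool.Agent.Helper65.Mor
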