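import Pool.Agent.Helper65.Mor.LC

/-!
# Finite sets on which all partial homomorphisms extend
-/

namespace Pool.Agent.Helper65.Mor

/-- `e` is a partial ring homomorphism on `Y` -/
structure PHom {C E : Type} [CommRing C] [CommRing E] (Y : Set C) (e : C → E) : Prop where
  zero : 0 ∈ Y → e 0 = 0
  one : 1 ∈ Y → e 1 = 1
  add : ∀ a ∈ Y, ∀ b ∈ Y, a + b ∈ Y → e (a + b) = e a + e b
  mul : ∀ a ∈ Y, ∀ b ∈ Y, a * b ∈ Y → e (a * b) = e a * e b

theorem claim {C : Type} [CommRing C] {n : ℕ} (π : MvPolynomial (Fin n) ℤ →+* C)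
    (F : MvPolynomial (Fin n) ℤ) :
    ∃ K : Finset (MvPolynomial (Fin n) ℤ), F ∈ K ∧ ∀ G ∈ K, ∀ Y : Set C, (∀ H ∈ K, π H ∈ Y) →
      ∀ (E : Type) [CommRing E] (e : C → E), PHom Y e →
        MvPolynomial.eval₂Hom (Int.castRingHom E) (fun i => e (π (MvPolynomial.X i))) G
          = e (π G) := by
  classical
  induction F using MvPolynomial.induction_on with
  | C a =>
    induction a using Int.induction_on with
    | zero =>
      refine ⟨{0}, by simp, ?_⟩
      intro G hG Y hY E _ e he
      rw [Finset.mem_singleton] at hG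
      subst hG
      have := hY 0 (by simp)
      rw [map_zero] at this
      rw [map_zero, map_zero, he.zero this]
    | succ i ih =>
      obtain ⟨K, hK, h⟩ := ih
      refine ⟨insert (MvPolynomial.C ((i : ℤ) + 1)) (insert 1 K), by simp, ?_⟩
      intro G hG Y hY E _ e he
      have hK' : ∀ H ∈ K, π H ∈ Y := fun H hH => hY H (by simp [hH])
      have h1 : (1 : C) ∈ Y := by
        have := hY 1 (by simp)
        rwa [map_one] at this
      rw [Finset.mem_insert, Finset.mem_insert] at hG
      rcases hG with rfl | rfl | hG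
      · have h2 := h _ hK Y hK' E e he
        have h3 := hY (MvPolynomial.C ((i : ℤ) + 1)) (by simp)
        rw [map_add, map_add, map_one, map_one] at h3
        rw [map_add, map_add, h2, map_add, map_one, map_one, map_one,
          he.add _ (hK' _ hK) _ h1 h3, he.one h1]
      · rw [map_one, map_one, he.one h1]
      · exact h G hG Y hK' E e he
    | pred i ih =>
      obtain ⟨K, hK, h⟩ := ih
      refine ⟨insert (MvPolynomial.C (-(i : ℤ) - 1)) (insert 1 K), by simp, ?_⟩
      intro G hG Y hY E _ e he
      have hK' : ∀ H ∈ K, π H ∈ Y := fun H hH => hY H (by simp [hH])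
      have h1 : (1 : C) ∈ Y := by
        have := hY 1 (by simp)
        rwa [map_one] at this
      rw [Finset.mem_insert, Finset.mem_insert] at hG
      rcases hG with rfl | rfl | hG
      · have h2 := h _ hK Y hK' E e he
        have h3 := hY (MvPolynomial.C (-(i : ℤ) - 1)) (by simp)
        have h4 : π (MvPolynomial.C (-(i : ℤ) - 1)) + 1 = π (MvPolynomial.C (-(i : ℤ))) := by
          rw [← map_one π, ← map_add, ← MvPolynomial.C_1, ← MvPolynomial.C_add]
          congr 2
          ring
        have h5 := he.add _ h3 1 h1 (by rw [h4]; exact hK' _ hK)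
        rw [h4, he.one h1] at h5
        have h6 : (MvPolynomial.C (-(i : ℤ) - 1) : MvPolynomial (Fin n) ℤ) =
          MvPolynomial.C (-(i : ℤ)) - 1 := by
          rw [← MvPolynomial.C_1, ← MvPolynomial.C_sub]
        calc _ = MvPolynomial.eval₂Hom (Int.castRingHom E)
              (fun i => e (π (MvPolynomial.X i))) (MvPolynomial.C (-(i : ℤ))) - 1 := by
                rw [h6, map_sub, map_one]
          _ = e (π (MvPolynomial.C (-(i : ℤ)))) - 1 := by rw [h2]
          _ = _ := by rw [h5]; ring
      · rw [map_one, map_one, he.one h1]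
      · exact h G hG Y hK' E e he
  | add p q hp hq =>
    obtain ⟨K, hK, h⟩ := hp
    obtain ⟨L, hL, h'⟩ := hq
    refine ⟨insert (p + q) (K ∪ L), by simp, ?_⟩
    intro G hG Y hY E _ e he
    have hK' : ∀ H ∈ K, π H ∈ Y := fun H hH => hY H (by simp [hH])
    have hL' : ∀ H ∈ L, π H ∈ Y := fun H hH => hY H (by simp [hH])
    rw [Finset.mem_insert, Finset.mem_union] at hG
    rcases hG with rfl | hG | hG
    · have h3 := hY (p + q) (by simp)
      rw [map_add] at h3
      rw [map_add, h p hK Y hK' E e he, h' q hL Y hL' E e he, map_add,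
        he.add _ (hK' _ hK) _ (hL' _ hL) h3]
    · exact h G hG Y hK' E e he
    · exact h' G hG Y hL' E e he
  | mul_X p i hp =>
    obtain ⟨K, hK, h⟩ := hp
    refine ⟨insert (p * MvPolynomial.X i) (insert (MvPolynomial.X i) K), by simp, ?_⟩
    intro G hG Y hY E _ e he
    have hK' : ∀ H ∈ K, π H ∈ Y := fun H hH => hY H (by simp [hH])
    rw [Finset.mem_insert, Finset.mem_insert] at hG
    rcases hG with rfl | rfl | hG
    · have h3 := hY (p * MvPolynomial.X i) (by simp)
      have h4 := hY (MvPolynomial.X i) (by simp)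
      rw [map_mul] at h3
      rw [map_mul, h p hK Y hK' E e he, map_mul, he.mul _ (hK' _ hK) _ h4 h3]
      simp
    · simp
    · exact h G hG Y hK' E e he

/-- **Tight sets.** Every finitely generated commutative ring `C` contains a finite set `Y` such
that all partial homomorphisms on `Y` extend uniquely to `C`. -/
theorem exists_tight (C : Type) [CommRing C] (hC : FGen C) :
    ∃ Y : Finset C, 0 ∈ Y ∧ 1 ∈ Y ∧
      (∀ (E : Type) [CommRing E] (e : C → E), PHom (Y : Set C) e →
        ∃ ψ : C →+* E, ∀ y ∈ Y, ψ y = e y) ∧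
      ∀ (E : Type) [CommRing E] (ψ ψ' : C →+* E), (∀ y ∈ Y, ψ y = ψ' y) → ψ = ψ' := by
  classical
  obtain ⟨n, π, hπ⟩ : ∃ (n : ℕ) (π : MvPolynomial (Fin n) ℤ →+* C), Function.Surjective π := by
    let _ := (Int.castRingHom C).toAlgebra
    have h : Algebra.FiniteType ℤ C := hC
    obtain ⟨n, f, hf⟩ := Algebra.FiniteType.iff_quotient_mvPolynomial''.1 h
    exact ⟨n, f.toRingHom, hf⟩
  obtain ⟨L, hL⟩ : (RingHom.ker π).FG := IsNoetherian.noetherian _
  choose K hK h using claim π
  let M : Finset (MvPolynomial (Fin n) ℤ) :=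
    {0, 1} ∪ (Finset.univ.image MvPolynomial.X ∪ L).biUnion K
  have hM : ∀ F ∈ (Finset.univ.image MvPolynomial.X ∪ L), ∀ H ∈ K F, H ∈ M := by
    intro F hF H hH
    exact Finset.mem_union_right _ (Finset.mem_biUnion.2 ⟨F, hF, hH⟩)
  refine ⟨M.image π, ?_, ?_, ?_, ?_⟩
  · exact Finset.mem_image.2 ⟨0, by simp [M], map_zero π⟩
  · exact Finset.mem_image.2 ⟨1, by simp [M], map_one π⟩
  · intro E _ e he
    have hY : ∀ H ∈ M, π H ∈ ((M.image π : Finset C) : Set C) := fun H hH =>
      Finset.mem_coe.2 (Finset.mem_image_of_mem π hH)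
    let φ := MvPolynomial.eval₂Hom (Int.castRingHom E) (fun i => e (π (MvPolynomial.X i)))
    have h0 : e 0 = 0 := he.zero (by
      have := hY 0 (by simp [M])
      rwa [map_zero] at this)
    have h1 : e 1 = 1 := he.one (by
      have := hY 1 (by simp [M])
      rwa [map_one] at this)
    have hφ : ∀ G ∈ M, φ G = e (π G) := by
      intro G hG
      rw [Finset.mem_union] at hG
      rcases hG with hG | hG
      · simp only [Finset.mem_insert, Finset.mem_singleton] at hG
        rcases hG with rfl | rfl
        · rw [map_zero, map_zero, h0]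
        · rw [map_one, map_one, h1]
      · obtain ⟨F, hF, hG⟩ := Finset.mem_biUnion.1 hG
        exact h F G hG _ (fun H hH => hY H (hM F hF H hH)) E e he
    have hker : RingHom.ker π ≤ RingHom.ker φ := by
      rw [← hL, Ideal.span_le]
      intro F hF
      have hFM : F ∈ M := hM F (by simp [Finset.mem_coe.1 hF]) F (hK F)
      have hF0 : π F = 0 := by
        have : F ∈ RingHom.ker π := by
          rw [← hL]
          exact Ideal.subset_span hF
        exact this
      rw [SetLike.mem_coe, RingHom.mem_ker, hφ F hFM, hF0, h0]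
    have hker' : ∀ a ∈ RingHom.ker π, φ a = 0 := fun a ha => RingHom.mem_ker.1 (hker ha)
    let ψ : C →+* E := (Ideal.Quotient.lift (RingHom.ker π) φ hker').comp
      (RingHom.quotientKerEquivOfSurjective hπ).symm.toRingHom
    have hψ : ∀ F, ψ (π F) = φ F := by
      intro F
      have : (RingHom.quotientKerEquivOfSurjective hπ).symm (π F) =
          Ideal.Quotient.mk (RingHom.ker π) F := by
        rw [RingEquiv.symm_apply_eq]
        simp
      simp only [ψ, RingHom.comp_apply, RingEquiv.toRingHom_eq_coe, RingEquiv.coe_toRingHom]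
      rw [this, Ideal.Quotient.lift_mk]
    refine ⟨ψ, ?_⟩
    intro y hy
    obtain ⟨G, hG, rfl⟩ := Finset.mem_image.1 hy
    rw [hψ, hφ G hG]
  · intro E _ ψ ψ' h'
    have : ψ.comp π = ψ'.comp π := by
      apply MvPolynomial.ringHom_ext
      · intro a
        simp
      · intro i
        rw [RingHom.comp_apply, RingHom.comp_apply]
        apply h'
        apply Finset.mem_image_of_mem
        exact hM (MvPolynomial.X i) (by simp) _ (hK _)
    ext c
    obtain ⟨F, rfl⟩ := hπ c
    exact congrArg (fun χ : MvPolynomial (Fin n) ℤ →+* E => χ F) this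

end Pool.Agent.Helper65.Mor
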