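import Pool.Agent.Helper65.Mor.Tower
import Pool.Agent.Helper65.Mor.Tight
import Pool.Agent.Helper65.Mor.PluckerDefs

/-!
# Pluecker coordinates on the standard chart of `Gr(3, 3 + J)`
-/

namespace Pool.Agent.Helper65.Mor

open MvPolynomial

section

variable {J : Type}

theorem plucker_01 (j : J) : plucker ![.inl 0, .inl 1, .inr j] = X (2, j) := by
  simp [plucker, genMatrix, Matrix.det_fin_three]

theorem plucker_12 (j : J) : plucker ![.inl 1, .inl 2, .inr j] = X (0, j) := by
  simp [plucker, genMatrix, Matrix.det_fin_three]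

theorem plucker_02 (j : J) : plucker ![.inl 0, .inl 2, .inr j] = - X (1, j) := by
  simp [plucker, genMatrix, Matrix.det_fin_three]

theorem plucker_0 (j k : J) :
    plucker ![.inl 0, .inr j, .inr k] = X (1, j) * X (2, k) - X (1, k) * X (2, j) := by
  simp [plucker, genMatrix, Matrix.det_fin_three]

theorem plucker_1 (j k : J) :
    plucker ![.inl 1, .inr j, .inr k] = X (0, k) * X (2, j) - X (0, j) * X (2, k) := by
  simp [plucker, genMatrix, Matrix.det_fin_three]
  ring

theorem plucker_2 (j k : J) :
    plucker ![.inl 2, .inr j, .inr k] = X (0, j) * X (1, k) - X (0, k) * X (1, j) := by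
  simp [plucker, genMatrix, Matrix.det_fin_three]

theorem plucker_3 (j k l : J) :
    plucker ![.inr j, .inr k, .inr l] =
      X (0, j) * X (1, k) * X (2, l) - X (0, j) * X (1, l) * X (2, k)
      - X (0, k) * X (1, j) * X (2, l) + X (0, k) * X (1, l) * X (2, j)
      + X (0, l) * X (1, j) * X (2, k) - X (0, l) * X (1, k) * X (2, j) := by
  simp [plucker, genMatrix, Matrix.det_fin_three]

theorem plucker_not_injective (I : Fin 3 → Fin 3 ⊕ J) (hI : ¬ Function.Injective I) :
    plucker I = 0 := by
  rw [Function.Injective] at hI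
  push Not at hI
  obtain ⟨a, b, hab, hne⟩ := hI
  exact Matrix.det_zero_of_column_eq hne (fun i => by simp [Matrix.submatrix_apply, hab])

end

end Pool.Agent.Helper65.Mor
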