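import Pool.Agent.Helper65.Mor.Model

/-!
# The universality theorem for rings
-/

namespace Pool.Agent.Helper65.Mor

open MvPolynomial

section

variable {C : Type} [CommRing C] {Y : Finset C}

/-- the universal configuration over `D` -/
noncomputable def conf {D : Type} [CommRing D] (γ : C →+* D)
    (t : Fin 3 ⊕ Option (Y × Y) → D) : Chart (Col Y) →+* D :=
  eval₂Hom (Int.castRingHom D) (fun p => xval γ t p.1 p.2)

theorem conf_X {D : Type} [CommRing D] (γ : C →+* D) (t : Fin 3 ⊕ Option (Y × Y) → D)
    (i : Fin 3) (j : Col Y) : conf γ t (X (i, j)) = xval γ t i j := by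
  simp [conf]

theorem lc_conf (h0 : (0 : C) ∈ Y) (h1 : (1 : C) ∈ Y)
    (hY : ∀ (E : Type) [CommRing E] (e : C → E), PHom (Y : Set C) e →
        ∃ ψ : C →+* E, ∀ y ∈ Y, ψ y = e y)
    (hY' : ∀ (E : Type) [CommRing E] (ψ ψ' : C →+* E), (∀ y ∈ Y, ψ y = ψ' y) → ψ = ψ')
    {D : Type} [CommRing D] {γ : C →+* D} {t : Fin 3 ⊕ Option (Y × Y) → D} (ht : Tower γ t) :
    LC (conf γ t) (plucker '' openTriples Y) (plucker '' closedTriples Y) := by
  have hc : Cond Y (fun i j => conf γ t (X (i, j))) := by
    simp only [conf_X]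
    exact cond_xval ht.unit
  refine ⟨((cond_iff Y _).2 hc).1, ((cond_iff Y _).2 hc).2, ?_, ?_⟩
  · intro E _ φ hu hz
    have hx : Cond Y (fun i j => φ (X (i, j))) := (cond_iff Y φ).1 ⟨hu, hz⟩
    obtain ⟨ψ, t', ht', h⟩ := exists_of_cond h0 h1 hY hx
    obtain ⟨χ, hχ1, hχ2⟩ := ht.lift E ψ t' ht'
    refine ⟨χ, ?_⟩
    have key : ∀ i j, χ (xval γ t i j) = φ (X (i, j)) := by
      intro i j
      rw [← h i j]
      have hγ : ∀ a, χ (γ a) = ψ a := fun a => congrArg (fun ξ : C →+* E => ξ a) hχ1
      rcases j with _ | _ | ⟨a, b⟩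
      · simp only [xval, hχ2]
      · simp only [xval, map_mul, hχ2]
        split_ifs <;> simp [hχ2]
      · simp only [xval, map_mul, hχ2]
        fin_cases i <;> simp [hγ]
    apply MvPolynomial.ringHom_ext
    · intro a
      simp
    · rintro ⟨i, j⟩
      rw [RingHom.comp_apply, conf_X, key]
  · intro E _ ψ ψ' h
    have key : ∀ i j, ψ (xval γ t i j) = ψ' (xval γ t i j) := by
      intro i j
      have := congrArg (fun ξ : Chart (Col Y) →+* E => ξ (X (i, j))) h
      simpa [conf_X] using this
    have hr : ∀ i, ψ (t (.inl i)) = ψ' (t (.inl i)) := fun i => key i cu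
    have hd : ψ (t (.inr none)) = ψ' (t (.inr none)) := by
      have := key 0 cd
      simp only [xval, map_mul] at this
      simp only [Fin.isValue, Fin.reduceEq, if_false, hr] at this
      exact ((ht.unit (.inl 0)).map ψ').mul_right_cancel this
    have hq : ∀ a b, ψ (t (.inr (some (a, b)))) = ψ' (t (.inr (some (a, b)))) := by
      intro a b
      have := key 2 (cq a b)
      simp only [xval, map_mul] at this
      simp [hr] at this
      exact ((ht.unit (.inl 2)).map ψ').mul_right_cancel this
    apply ht.ext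
    · apply hY'
      intro y hy
      have := key 0 (cq ⟨y, hy⟩ ⟨y, hy⟩)
      simp only [xval, map_mul, hr, hq] at this
      have hu : IsUnit (ψ' (t (.inr (some (⟨y, hy⟩, ⟨y, hy⟩)))) * ψ' (t (.inl 0))) :=
        ((ht.unit _).map ψ').mul ((ht.unit _).map ψ')
      have h2 := hu.mul_left_cancel this
      simpa using h2
    · rintro (i | _ | ⟨a, b⟩)
      · exact hr i
      · exact hd
      · exact hq a b

end

theorem Tower.reindex {C D σ τ : Type} [CommRing C] [CommRing D] {γ : C →+* D} {t : σ → D}
    (h : Tower γ t) (e : τ ≃ σ) : Tower γ (fun i => t (e i)) where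
  unit i := h.unit _
  lift E _ φ u hu := by
    obtain ⟨ψ, h1, h2⟩ := h.lift E φ (fun i => u (e.symm i)) (fun i => hu _)
    exact ⟨ψ, h1, fun i => by simpa using h2 (e i)⟩
  ext E _ ψ ψ' h1 h2 := h.ext E ψ ψ' h1 (fun i => by simpa using h2 (e.symm i))

section

variable {J : Type}

/-- change of the names of the columns -/
noncomputable def ren {n : ℕ} (e : J ≃ Fin n) : Chart J ≃+* Chart (Fin n) :=
  (MvPolynomial.renameEquiv ℤ ((Equiv.refl (Fin 3)).prodCongr e)).toRingEquiv

theorem ren_plucker {n : ℕ} (e : J ≃ Fin n) (I : Fin 3 → Fin 3 ⊕ J) :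
    ren e (plucker I) = plucker (fun k => Sum.map id e (I k)) := by
  rw [plucker, plucker]
  change (ren e : Chart J →+* Chart (Fin n)) _ = _
  rw [RingHom.map_det]
  congr 1
  ext i k
  simp only [RingHom.mapMatrix_apply, Matrix.map_apply, Matrix.submatrix_apply, id_eq]
  rcases I k with c | j
  · simp only [genMatrix, Sum.map_inl, id_eq, Matrix.fromCols_apply_inl, Matrix.one_apply]
    split_ifs <;> simp
  · simp [genMatrix, ren]

end

/-- **Universality for rings.** -/
theorem ring_main {Q : ∀ (R : Type) [CommRing R], Prop} (hQ : RingClass Q)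
    (h0 : ∀ (R : Type) [CommRing R], Subsingleton R → Q R)
    (hgm : ∀ (R : Type) [CommRing R], FGen R → Q (LaurentPolynomial R) → Q R)
    (hGr : ∀ (n : ℕ) (S : Finset (Fin 3 ↪ Fin 3 ⊕ Fin n)),
      Q (Localization.Away (∏ I ∈ S, plucker I)))
    (C : Type) [CommRing C] (hC : FGen C) : Q C := by
  classical
  obtain ⟨Y, hY0, hY1, hY, hY'⟩ := exists_tight C hC
  obtain ⟨D, _, γ, t, ht, hD, hDC⟩ := exists_tower Q hgm C hC
    (Fintype.card (Fin 3 ⊕ Option (Y × Y)))
  apply hDC
  have ht' := ht.reindex (Fintype.equivFin (Fin 3 ⊕ Option (Y × Y)))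
  have hlc := lc_conf hY0 hY1 hY hY' ht'
  let e : Col Y ≃ Fin (Fintype.card (Col Y)) := Fintype.equivFin _
  have hA : FGen (Chart (Col Y)) := by
    have : (algebraMap ℤ (Chart (Col Y))).FiniteType :=
      RingHom.finiteType_algebraMap.2 inferInstance
    have h2 : Int.castRingHom (Chart (Col Y)) = algebraMap ℤ (Chart (Col Y)) :=
      RingHom.ext_int _ _
    rw [FGen, h2]
    exact this
  let G : Finset (Chart (Col Y)) := (Set.toFinite (plucker '' openTriples Y)).toFinset
  let F : Finset (Chart (Col Y)) := (Set.toFinite (plucker '' closedTriples Y)).toFinset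
  have hG : ∀ g ∈ G, ∃ I, plucker I = g := by
    intro g hg
    obtain ⟨I, -, hI⟩ := (Set.Finite.mem_toFinset _).1 hg
    exact ⟨I, hI⟩
  have hF : ∀ g ∈ F, ∃ I, plucker I = g := by
    intro g hg
    obtain ⟨I, -, hI⟩ := (Set.Finite.mem_toFinset _).1 hg
    exact ⟨I, hI⟩
  refine hQ.of_open hA F G ?_ D _ (by simpa [G, F] using hlc)
  intro S hS B _ β hβ
  let G' : Set (Chart (Col Y)) := (G : Set (Chart (Col Y))) ∪ (S : Set (Chart (Col Y)))
  by_cases hz : (0 : Chart (Col Y)) ∈ G'
  · have : IsUnit (β 0) := hβ.unit 0 hz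
    rw [map_zero, isUnit_zero_iff] at this
    exact h0 B (subsingleton_of_zero_eq_one this)
  · have hG' : ∀ g ∈ G', ∃ I : Fin 3 ↪ Fin 3 ⊕ Col Y, plucker I = g := by
      intro g hg
      obtain ⟨I, hI⟩ : ∃ I, plucker I = g := by
        rcases hg with hg | hg
        · exact hG g hg
        · exact hF g (hS hg)
      by_cases hinj : Function.Injective I
      · exact ⟨⟨I, hinj⟩, hI⟩
      · rw [plucker_not_injective I hinj] at hI
        rw [← hI] at hg
        exact absurd hg hz
    let T : Finset (Fin 3 ↪ Fin 3 ⊕ Fin (Fintype.card (Col Y))) :=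
      Finset.univ.filter fun I => plucker I ∈ ren e '' G'
    have h1 := (LC.id (A := Chart (Fin (Fintype.card (Col Y))))).away (∏ I ∈ T, plucker I)
    let β' : Chart (Fin (Fintype.card (Col Y))) →+* B := β.comp (ren e).symm.toRingHom
    have h2 : LC β' {∏ I ∈ T, plucker I} ∅ := by
      have hT : ∀ (E : Type) [CommRing E] (φ : Chart (Fin (Fintype.card (Col Y))) →+* E),
          IsUnit (φ (∏ I ∈ T, plucker I)) ↔ ∀ g ∈ G', IsUnit (φ (ren e g)) := by
        intro E _ φ
        rw [map_prod, IsUnit.prod_iff]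
        constructor
        · intro h g hg
          obtain ⟨I, hI⟩ := hG' g hg
          let I' : Fin 3 ↪ Fin 3 ⊕ Fin (Fintype.card (Col Y)) :=
            ⟨fun k => Sum.map id e (I k), fun a b hab =>
              I.injective (Sum.map_injective.2 ⟨Function.injective_id, e.injective⟩ hab)⟩
          have h3 : plucker I' = ren e g := by
            rw [← hI, ren_plucker]
            rfl
          rw [← h3]
          exact h I' (Finset.mem_filter.2 ⟨Finset.mem_univ _, g, hg, h3.symm⟩)
        · intro h I hI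
          obtain ⟨g, hg, hgI⟩ := (Finset.mem_filter.1 hI).2
          rw [← hgI]
          exact h g hg
      refine ⟨?_, fun f hf => hf.elim, ?_, ?_⟩
      · intro g hg
        rw [Set.mem_singleton_iff] at hg
        subst hg
        rw [hT]
        intro g hg
        simp only [β', RingHom.comp_apply]
        have : (ren e).symm.toRingHom ((ren e) g) = g := (ren e).symm_apply_apply g
        rw [this]
        exact hβ.unit g hg
      · intro E _ φ h3 _
        have h4 := (hT E φ).1 (h3 _ rfl)
        obtain ⟨ψ, hψ⟩ := hβ.lift E (φ.comp (ren e).toRingHom) h4 (fun f hf => hf.elim)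
        refine ⟨ψ, ?_⟩
        rw [← RingHom.comp_assoc, hψ, RingHom.comp_assoc]
        ext a
        · simp
        · simp
      · intro E _ ψ ψ' h3
        apply hβ.ext
        ext a
        · simp
        · have := congrArg (fun ξ : Chart (Fin (Fintype.card (Col Y))) →+* E =>
            ξ (ren e (X a))) h3
          simpa [β'] using this
    have h3 : LC ((algebraMap (Chart (Fin (Fintype.card (Col Y))))
        (Localization.Away (∏ I ∈ T, plucker I))).comp (RingHom.id _)) {∏ I ∈ T, plucker I} ∅ := by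
      simpa using h1
    obtain ⟨f⟩ := h3.equiv h2
    have hA' : FGen (Chart (Fin (Fintype.card (Col Y)))) :=
      hA.of_surjective (ren e).toRingHom (ren e).surjective
    exact hQ.iso _ _ (hA'.away _) f (hGr _ T)

end Pool.Agent.Helper65.Mor
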