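import Pool.Agent.Helper65.Mor.LC

/-!
# Products with split tori, and finite presentations by partial homomorphisms
-/

namespace Pool.Agent.Helper65.Mor

open LaurentPolynomial

/-- `D` is the ring of the product of `Spec C` with the split torus with coordinates `t`. -/
structure Tower {C D σ : Type} [CommRing C] [CommRing D] (γ : C →+* D) (t : σ → D) : Prop where
  unit : ∀ i, IsUnit (t i)
  lift : ∀ (E : Type) [CommRing E] (φ : C →+* E) (e : σ → E), (∀ i, IsUnit (e i)) →
    ∃ ψ : D →+* E, ψ.comp γ = φ ∧ ∀ i, ψ (t i) = e i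
  ext : ∀ (E : Type) [CommRing E] (ψ ψ' : D →+* E), ψ.comp γ = ψ'.comp γ →
    (∀ i, ψ (t i) = ψ' (t i)) → ψ = ψ'

theorem laurent_ext {R S : Type} [CommRing R] [CommRing S] {ψ ψ' : R[T;T⁻¹] →+* S}
    (h : ψ.comp C = ψ'.comp C) (h1 : ψ (T 1) = ψ' (T 1)) : ψ = ψ' := by
  apply IsLocalization.ringHom_ext (Submonoid.powers (Polynomial.X : Polynomial R))
  apply Polynomial.ringHom_ext
  · intro a
    simpa using congrArg (fun χ : R →+* S => χ a) h
  · simpa using h1

/-- the torus can be added one coordinate at a time -/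
theorem exists_tower (Q : ∀ (R : Type) [CommRing R], Prop)
    (hgm : ∀ (R : Type) [CommRing R], FGen R → Q R[T;T⁻¹] → Q R)
    (C : Type) [CommRing C] (hC : FGen C) (n : ℕ) :
    ∃ (D : Type) (_ : CommRing D) (γ : C →+* D) (t : Fin n → D), Tower γ t ∧ FGen D ∧
      (Q D → Q C) := by
  induction n with
  | zero =>
    refine ⟨C, inferInstance, RingHom.id C, Fin.elim0, ⟨fun i => i.elim0, ?_, ?_⟩, hC, id⟩
    · intro E _ φ e _
      exact ⟨φ, RingHom.comp_id φ, fun i => i.elim0⟩
    · intro E _ ψ ψ' h _
      simpa using h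
  | succ n ih =>
    obtain ⟨D, _, γ, t, ht, hD, hQ⟩ := ih
    refine ⟨D[T;T⁻¹], inferInstance, LaurentPolynomial.C.comp γ,
      Fin.cons (T 1) (fun i => LaurentPolynomial.C (t i)), ⟨?_, ?_, ?_⟩, ?_, ?_⟩
    · intro i
      refine Fin.cases ?_ (fun i => ?_) i
      · exact isUnit_T 1
      · simpa using (ht.unit i).map LaurentPolynomial.C
    · intro E _ φ e he
      obtain ⟨ψ, h1, h2⟩ := ht.lift E φ (fun i => e i.succ) (fun i => he _)
      refine ⟨eval₂ ψ (he 0).unit, ?_, ?_⟩
      · rw [← RingHom.comp_assoc]
        have : (eval₂ ψ (he 0).unit).comp LaurentPolynomial.C = ψ := by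
          ext a
          simp
        rw [this, h1]
      · intro i
        refine Fin.cases ?_ (fun i => ?_) i
        · simp
        · simpa using h2 i
    · intro E _ ψ ψ' h h1
      apply laurent_ext
      · apply ht.ext
        · rw [RingHom.comp_assoc, h, RingHom.comp_assoc]
        · intro i
          simpa using h1 i.succ
      · simpa using h1 0
    · apply hD.of_hom (LaurentPolynomial.C)
      have h3 : (algebraMap (Polynomial D) D[T;T⁻¹]).FiniteType :=
        RingHom.finiteType_algebraMap.2
          (IsLocalization.finiteType_of_monoid_fg (Submonoid.powers (Polynomial.X : Polynomial D)) _)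
      have h4 : (Polynomial.C : D →+* Polynomial D).FiniteType :=
        RingHom.finiteType_algebraMap.2 (inferInstance : Algebra.FiniteType D (Polynomial D))
      have h5 : (LaurentPolynomial.C : D →+* D[T;T⁻¹]) =
          (algebraMap (Polynomial D) D[T;T⁻¹]).comp Polynomial.C := by
        ext a
        simp
      rw [h5]
      exact h3.comp h4
    · intro h
      exact hQ (hgm D hD h)

end Pool.Agent.Helper65.Mor
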